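import Pool.Agent.H569_Schur.Defs

/-!
Words, iterated brackets of words, functionals.
-/

set_option autoImplicit false

namespace Pool.Agent.H569_Schur

/-- letters -/
inductive Lt
  | a | b | c | d
  deriving DecidableEq

/-- the number of a letter -/
def Lt.fin : Lt → Fin 4
  | .a => 0
  | .b => 1
  | .c => 2
  | .d => 3

/-- the letter with a given number -/
def Lt.of (i : Fin 4) : Lt := if i = 0 then .a else if i = 1 then .b else if i = 2 then .c else .d

theorem Lt.of_fin (x : Lt) : Lt.of x.fin = x := by cases x <;> rfl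
theorem Lt.fin_of (i : Fin 4) : (Lt.of i).fin = i := by fin_cases i <;> rfl

/-- words -/
abbrev W := List Lt

variable {K : Type} [Field K]

/-- the monomial of a word -/
def mono (w : W) : FreeAlgebra K (Fin 4) := (w.map (fun x => FreeAlgebra.ι K x.fin)).prod

theorem mono_nil : (mono [] : FreeAlgebra K (Fin 4)) = 1 := rfl

theorem mono_append (u v : W) : (mono (u ++ v) : FreeAlgebra K (Fin 4)) = mono u * mono v := by
  simp [mono]

theorem basis_eq_mono (w : FreeMonoid (Fin 4)) :
    FreeAlgebra.basisFreeMonoid K (Fin 4) w = mono (w.toList.map Lt.of) := by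
  simp only [FreeAlgebra.basisFreeMonoid, Module.Basis.map_apply, Finsupp.coe_basisSingleOne]
  simp only [mono, List.map_map]
  have : ((fun x : Lt => FreeAlgebra.ι K x.fin) ∘ Lt.of) = FreeAlgebra.ι K := by
    funext i; simp [Lt.fin_of]
  rw [this]
  simp [FreeAlgebra.equivMonoidAlgebraFreeMonoid, FreeMonoid.lift_apply]

/-- the linear functional with given values on the words -/
noncomputable def fn (φ : W → ℤ) : FreeAlgebra K (Fin 4) →ₗ[K] K :=
  (FreeAlgebra.basisFreeMonoid K (Fin 4)).constr K
    (fun w => ((φ (w.toList.map Lt.of) : ℤ) : K))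

theorem mono_eq_basis (w : W) :
    (mono w : FreeAlgebra K (Fin 4)) =
      FreeAlgebra.basisFreeMonoid K (Fin 4) (FreeMonoid.ofList (w.map Lt.fin)) := by
  rw [basis_eq_mono]
  congr 1
  simp only [FreeMonoid.toList_ofList, List.map_map]
  have : Lt.of ∘ Lt.fin = id := by funext x; simp [Lt.of_fin]
  rw [this, List.map_id]

theorem fn_mono (φ : W → ℤ) (w : W) : fn (K := K) φ (mono w) = ((φ w : ℤ) : K) := by
  rw [mono_eq_basis, fn, Module.Basis.constr_basis]
  simp only [FreeMonoid.toList_ofList, List.map_map]
  have : Lt.of ∘ Lt.fin = id := by funext x; simp [Lt.of_fin]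
  rw [this, List.map_id]

theorem span_mono : Submodule.span K (Set.range (mono : W → FreeAlgebra K (Fin 4))) = ⊤ := by
  rw [eq_top_iff, ← (FreeAlgebra.basisFreeMonoid K (Fin 4)).span_eq]
  apply Submodule.span_mono
  rintro _ ⟨w, rfl⟩
  exact ⟨_, (basis_eq_mono w).symm⟩

/-- iterated bracket of words -/
noncomputable def brk : List W → FreeAlgebra K (Fin 4)
  | [] => 0
  | [w] => mono w
  | (w :: v :: ws) => mono w * brk (v :: ws) - brk (v :: ws) * mono w

theorem brk_cons (w : W) (ws : List W) (h : ws ≠ []) :
    (brk (w :: ws) : FreeAlgebra K (Fin 4)) = mono w * brk ws - brk ws * mono w := by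
  cases ws with
  | nil => exact absurd rfl h
  | cons v ws => rfl

/-- a bracket with an empty word vanishes -/
theorem brk_eq_zero (ws : List W) (h2 : 2 ≤ ws.length) (h : [] ∈ ws) :
    (brk ws : FreeAlgebra K (Fin 4)) = 0 := by
  induction ws with
  | nil => simp at h
  | cons w ws ih =>
    have hne : ws ≠ [] := by
      rintro rfl; simp at h2
    rw [brk_cons w ws hne]
    rcases List.mem_cons.1 h with h | h
    · rw [← h, mono_nil, one_mul, mul_one, sub_self]
    · rcases Nat.lt_or_ge ws.length 2 with h3 | h3
      · match ws, h3, hne, h with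
        | [v], _, _, h =>
          have : v = [] := (List.mem_singleton.1 h).symm
          subst this
          simp [brk, mono_nil]
      · rw [ih h3 h, mul_zero, zero_mul, sub_self]

theorem L_succ (k : ℕ) (hk : 1 ≤ k) : L K 4 (k + 1) = Submodule.span K
    {x | ∃ a : FreeAlgebra K (Fin 4), ∃ b ∈ L K 4 k, x = a * b - b * a} := by
  obtain ⟨k, rfl⟩ : ∃ j, k = j + 1 := ⟨k - 1, by omega⟩
  rfl

theorem L_le_of (k : ℕ) (hk : 1 ≤ k) : L K 4 (k + 1) ≤ L K 4 k := by
  induction k, hk using Nat.le_induction with
  | base => exact le_top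
  | succ k hk ih =>
    rw [L_succ (k + 1) (by omega), Submodule.span_le]
    rintro _ ⟨a, b, hb, rfl⟩
    rw [L_succ k hk]
    exact Submodule.subset_span ⟨a, b, ih hb, rfl⟩

/-- `L k` is spanned by the iterated brackets of `k` words -/
theorem L_eq (k : ℕ) (hk : 1 ≤ k) :
    L K 4 k = Submodule.span K {x | ∃ ws : List W, ws.length = k ∧ x = brk ws} := by
  induction k, hk using Nat.le_induction with
  | base =>
    symm
    show _ = (⊤ : Submodule K _)
    rw [eq_top_iff, ← span_mono]
    apply Submodule.span_mono
    rintro _ ⟨w, rfl⟩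
    exact ⟨[w], rfl, rfl⟩
  | succ k hk ih =>
    rw [L_succ k hk]
    apply le_antisymm
    · rw [Submodule.span_le]
      rintro _ ⟨a, b, hb, rfl⟩
      have hb' := hb
      rw [ih] at hb'
      induction hb' using Submodule.span_induction with
      | mem x hx =>
        obtain ⟨ws, hws, rfl⟩ := hx
        have hne : ws ≠ [] := by rintro rfl; simp at hws; omega
        have ha : a ∈ Submodule.span K (Set.range (mono : W → FreeAlgebra K (Fin 4))) := by
          rw [span_mono]; trivial
        induction ha using Submodule.span_induction with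
        | mem x hx =>
          obtain ⟨w, rfl⟩ := hx
          exact Submodule.subset_span ⟨w :: ws, by simp [hws], (brk_cons w ws hne).symm⟩
        | zero => simp
        | add x y _ _ hx hy =>
          have : (x + y) * brk ws - brk ws * (x + y)
            = (x * brk ws - brk ws * x) + (y * brk ws - brk ws * y) := by noncomm_ring
          rw [this]
          exact Submodule.add_mem _ hx hy
        | smul c x _ hx =>
          have : (c • x) * brk ws - brk ws * (c • x) = c • (x * brk ws - brk ws * x) := by
            rw [smul_mul_assoc, mul_smul_comm, smul_sub]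
          rw [this]
          exact Submodule.smul_mem _ c hx
      | zero => simp
      | add x y _ _ hx hy =>
        have : a * (x + y) - (x + y) * a = (a * x - x * a) + (a * y - y * a) := by noncomm_ring
        rw [this]
        refine Submodule.add_mem _ (hx ?_) (hy ?_)
        · rw [ih]; assumption
        · rw [ih]; assumption
      | smul c x _ hx =>
        have : a * (c • x) - (c • x) * a = c • (a * x - x * a) := by
          rw [smul_mul_assoc, mul_smul_comm, smul_sub]
        rw [this]
        refine Submodule.smul_mem _ c (hx ?_)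
        rw [ih]; assumption
    · rw [Submodule.span_le]
      rintro _ ⟨ws, hws, rfl⟩
      cases ws with
      | nil => simp at hws
      | cons w ws =>
        have hl : ws.length = k := by simpa using hws
        have hne : ws ≠ [] := by rintro rfl; simp at hl; omega
        rw [brk_cons w ws hne]
        refine Submodule.subset_span ⟨mono w, brk ws, ?_, rfl⟩
        rw [ih]
        exact Submodule.subset_span ⟨ws, hl, rfl⟩

/-- multidegree of a word -/
def cnt (w : W) : Fin 4 → ℕ := fun i => (w.map Lt.fin).count i

theorem cnt_append (u v : W) : cnt (u ++ v) = cnt u + cnt v := by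
  funext i; simp [cnt]

theorem G_eq (e : Fin 4 → ℕ) : G K 4 e = Submodule.span K {x | ∃ w : W, cnt w = e ∧ x = mono w} := by
  unfold G
  congr 1
  ext x
  constructor
  · rintro ⟨w, hw, rfl⟩
    refine ⟨w.map Lt.of, ?_, ?_⟩
    · funext i
      simp only [cnt, List.map_map]
      have : Lt.fin ∘ Lt.of = id := by funext x; simp [Lt.fin_of]
      rw [this, List.map_id]
      exact hw i
    · simp only [mono, List.map_map]
      congr 2
      funext i; simp [Lt.fin_of]
  · rintro ⟨w, hw, rfl⟩
    refine ⟨w.map Lt.fin, fun i => congrFun hw i, ?_⟩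
    simp only [mono, List.map_map]
    rfl

/-- projection to the part of multidegree `e` -/
noncomputable def proj (e : Fin 4 → ℕ) : FreeAlgebra K (Fin 4) →ₗ[K] FreeAlgebra K (Fin 4) :=
  (FreeAlgebra.basisFreeMonoid K (Fin 4)).constr K
    (fun w => if cnt (w.toList.map Lt.of) = e then mono (w.toList.map Lt.of) else 0)

theorem proj_mono (e : Fin 4 → ℕ) (w : W) :
    proj (K := K) e (mono w) = if cnt w = e then mono w else 0 := by
  conv_lhs => rw [mono_eq_basis, proj, Module.Basis.constr_basis]
  simp only [FreeMonoid.toList_ofList, List.map_map]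
  have : Lt.of ∘ Lt.fin = id := by funext x; simp [Lt.of_fin]
  rw [this, List.map_id]

theorem proj_of_mem {e : Fin 4 → ℕ} {x : FreeAlgebra K (Fin 4)} (hx : x ∈ G K 4 e) :
    proj e x = x := by
  rw [G_eq] at hx
  induction hx using Submodule.span_induction with
  | mem x hx =>
    obtain ⟨w, hw, rfl⟩ := hx
    rw [proj_mono, if_pos hw]
  | zero => simp
  | add x y _ _ hx hy => rw [map_add, hx, hy]
  | smul c x _ hx => rw [map_smul, hx]

/-- positive and negative words in the expansion of an iterated bracket -/
def ex : List W → List W × List W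
  | [] => ([], [])
  | [w] => ([w], [])
  | (w :: v :: ws) =>
    ((ex (v :: ws)).1.map (fun u => w ++ u) ++ (ex (v :: ws)).2.map (fun u => u ++ w),
     (ex (v :: ws)).2.map (fun u => w ++ u) ++ (ex (v :: ws)).1.map (fun u => u ++ w))

theorem sum_map_mono_left (w : W) (l : List W) :
    ((l.map (fun u => w ++ u)).map (mono : W → FreeAlgebra K (Fin 4))).sum
      = mono w * (l.map mono).sum := by
  induction l with
  | nil => simp
  | cons u l ih => simp only [List.map_cons, List.sum_cons, ih, mono_append, mul_add]

theorem sum_map_mono_right (w : W) (l : List W) :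
    ((l.map (fun u => u ++ w)).map (mono : W → FreeAlgebra K (Fin 4))).sum
      = (l.map mono).sum * mono w := by
  induction l with
  | nil => simp
  | cons u l ih => simp only [List.map_cons, List.sum_cons, ih, mono_append, add_mul]

theorem brk_eq_ex (ws : List W) :
    (brk ws : FreeAlgebra K (Fin 4)) = ((ex ws).1.map mono).sum - ((ex ws).2.map mono).sum := by
  induction ws with
  | nil => simp [brk, ex]
  | cons w ws ih =>
    cases ws with
    | nil => simp [brk, ex]
    | cons v ws =>
      rw [brk_cons w _ (by simp), ih]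
      simp only [ex, List.map_append, List.sum_append, sum_map_mono_left, sum_map_mono_right]
      noncomm_ring

theorem ex_cnt (ws : List W) : ∀ u, (u ∈ (ex ws).1 ∨ u ∈ (ex ws).2) → cnt u = cnt ws.flatten := by
  induction ws with
  | nil => simp [ex]
  | cons w ws ih =>
    cases ws with
    | nil => intro u hu; simp [ex] at hu; simp [hu]
    | cons v ws =>
      intro u hu
      simp only [ex, List.mem_append, List.mem_map] at hu
      rw [List.flatten_cons, cnt_append]
      rcases hu with (⟨x, hx, rfl⟩ | ⟨x, hx, rfl⟩) | (⟨x, hx, rfl⟩ | ⟨x, hx, rfl⟩)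
      · rw [cnt_append, ih x (Or.inl hx)]
      · rw [cnt_append, ih x (Or.inr hx), add_comm]
      · rw [cnt_append, ih x (Or.inr hx)]
      · rw [cnt_append, ih x (Or.inl hx), add_comm]

theorem mono_mem_G (w : W) : (mono w : FreeAlgebra K (Fin 4)) ∈ G K 4 (cnt w) := by
  rw [G_eq]; exact Submodule.subset_span ⟨w, rfl, rfl⟩

theorem sum_mono_mem {e : Fin 4 → ℕ} (l : List W) (h : ∀ u ∈ l, cnt u = e) :
    (l.map mono).sum ∈ G K 4 e := by
  induction l with
  | nil => simp
  | cons u l ih =>
    rw [List.map_cons, List.sum_cons]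
    refine Submodule.add_mem _ ?_ (ih (fun v hv => h v (List.mem_cons_of_mem _ hv)))
    rw [← h u (List.mem_cons_self ..)]
    exact mono_mem_G u

theorem brk_mem_G (ws : List W) : (brk ws : FreeAlgebra K (Fin 4)) ∈ G K 4 (cnt ws.flatten) := by
  rw [brk_eq_ex]
  exact Submodule.sub_mem _ (sum_mono_mem _ (fun u hu => ex_cnt ws u (Or.inl hu)))
    (sum_mono_mem _ (fun u hu => ex_cnt ws u (Or.inr hu)))

theorem brk_mem_L (k : ℕ) (hk : 1 ≤ k) (ws : List W) (h : ws.length = k) :
    (brk ws : FreeAlgebra K (Fin 4)) ∈ L K 4 k := by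
  rw [L_eq k hk]; exact Submodule.subset_span ⟨ws, h, rfl⟩

theorem proj_sum_ne {e : Fin 4 → ℕ} (l : List W) (h : ∀ u ∈ l, cnt u ≠ e) :
    proj (K := K) e (l.map mono).sum = 0 := by
  induction l with
  | nil => simp
  | cons u l ih =>
    rw [List.map_cons, List.sum_cons, map_add, ih (fun v hv => h v (List.mem_cons_of_mem _ hv)),
      proj_mono, if_neg (h u (List.mem_cons_self ..)), add_zero]

theorem proj_brk_ne {e : Fin 4 → ℕ} (ws : List W) (h : cnt ws.flatten ≠ e) :
    proj (K := K) e (brk ws) = 0 := by
  rw [brk_eq_ex, map_sub, proj_sum_ne _ (fun u hu => by rw [ex_cnt ws u (Or.inl hu)]; exact h),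
    proj_sum_ne _ (fun u hu => by rw [ex_cnt ws u (Or.inr hu)]; exact h), sub_zero]

/-- the graded piece of `L k` is spanned by the brackets of `k` nonempty words of total
multidegree `e` -/
theorem L_inf_G (k : ℕ) (hk : 2 ≤ k) (e : Fin 4 → ℕ) :
    L K 4 k ⊓ G K 4 e ≤ Submodule.span K
      {x | ∃ ws : List W, ws.length = k ∧ [] ∉ ws ∧ cnt ws.flatten = e ∧ x = brk ws} := by
  rintro x ⟨hx, hxG⟩
  rw [← proj_of_mem hxG]
  clear hxG
  rw [SetLike.mem_coe, L_eq k (by omega)] at hx
  induction hx using Submodule.span_induction with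
  | mem x hx =>
    obtain ⟨ws, hws, rfl⟩ := hx
    by_cases h : cnt ws.flatten = e
    · by_cases h0 : [] ∈ ws
      · rw [brk_eq_zero ws (by omega) h0, map_zero]; exact Submodule.zero_mem _
      · rw [proj_of_mem (by rw [← h]; exact brk_mem_G ws)]
        exact Submodule.subset_span ⟨ws, hws, h0, h, rfl⟩
    · rw [proj_brk_ne ws h]; exact Submodule.zero_mem _
  | zero => rw [map_zero]; exact Submodule.zero_mem _
  | add x y _ _ hx hy => rw [map_add]; exact Submodule.add_mem _ hx hy
  | smul c x _ hx => rw [map_smul]; exact Submodule.smul_mem _ c hx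

/-- value of a functional on a bracket -/
def evz (φ : W → ℤ) (ws : List W) : ℤ := ((ex ws).1.map φ).sum - ((ex ws).2.map φ).sum

theorem fn_sum (φ : W → ℤ) (l : List W) :
    fn (K := K) φ (l.map mono).sum = (((l.map φ).sum : ℤ) : K) := by
  induction l with
  | nil => simp
  | cons u l ih => simp only [List.map_cons, List.sum_cons, map_add, fn_mono, ih, Int.cast_add]

theorem fn_brk (φ : W → ℤ) (ws : List W) : fn (K := K) φ (brk ws) = ((evz φ ws : ℤ) : K) := by
  rw [brk_eq_ex, map_sub, fn_sum, fn_sum, evz, Int.cast_sub]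

end Pool.Agent.H569_Schur
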