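import Pool.Agent.H569_Schur.DCore
set_option autoImplicit false
set_option maxRecDepth 100000
namespace Pool.Agent.H569_Schur

/-- certificate: `6 * δ v` as a combination of brackets of five words -/
def certD : List (ℤ × List W) := [
 (42, [[.a], [.a], [.a], [.b,.b], [.c,.d]]),
 (16, [[.a], [.a], [.a], [.b,.b], [.d,.c]]),
 (-26, [[.a], [.a], [.a], [.b,.c], [.b,.d]]),
 (24, [[.a], [.a], [.a], [.b,.c], [.d,.b]]),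
 (-62, [[.a], [.a], [.a], [.b,.d], [.c,.b]]),
 (-194, [[.a], [.a], [.a], [.c,.b], [.d,.b]]),
 (-32, [[.a], [.a], [.a,.b], [.b], [.c,.d]]),
 (-62, [[.a], [.a], [.a,.b], [.b], [.d,.c]]),
 (80, [[.a], [.a], [.a,.b], [.b,.c], [.d]]),
 (-38, [[.a], [.a], [.a,.b], [.b,.d], [.c]]),
 (-32, [[.a], [.a], [.a,.c], [.b], [.b,.d]]),
 (4, [[.a], [.a], [.a,.c], [.b], [.d,.b]]),
 (40, [[.a], [.a], [.a,.d], [.b], [.b,.c]]),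
 (62, [[.a], [.a], [.b], [.a,.b], [.c,.d]]),
 (6, [[.a], [.a], [.b], [.a,.b], [.d,.c]]),
 (-158, [[.a], [.a], [.b], [.a,.c], [.b,.d]]),
 (36, [[.a], [.a], [.b], [.a,.c], [.d,.b]]),
 (106, [[.a], [.a], [.b], [.a,.d], [.b,.c]]),
 (-8, [[.a], [.a], [.b], [.a,.d], [.c,.b]]),
 (40, [[.a], [.a], [.b], [.b,.a], [.c,.d]]),
 (44, [[.a], [.a], [.b], [.b,.a], [.d,.c]]),
 (-6, [[.a], [.a], [.b], [.b,.c], [.d,.a]]),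
 (10, [[.a], [.a], [.b], [.b,.d], [.c,.a]]),
 (-104, [[.a], [.a], [.b], [.c,.a], [.d,.b]]),
 (-68, [[.a], [.a], [.b], [.c,.b], [.d,.a]]),
 (-142, [[.a], [.a], [.b,.a], [.b], [.c,.d]]),
 (86, [[.a], [.a], [.b,.a], [.b], [.d,.c]]),
 (230, [[.a], [.a], [.b,.a], [.b,.c], [.d]]),
 (-224, [[.a], [.a], [.b,.a], [.b,.d], [.c]]),
 (50, [[.a], [.a], [.b,.b], [.a,.c], [.d]]),
 (-110, [[.a], [.a], [.b,.b], [.a,.d], [.c]]),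
 (36, [[.a], [.a], [.b,.c], [.a], [.b,.d]]),
 (16, [[.a], [.a], [.b,.c], [.a], [.d,.b]]),
 (-56, [[.a], [.a], [.b,.c], [.a,.b], [.d]]),
 (12, [[.a], [.a], [.b,.d], [.a,.b], [.c]]),
 (-16, [[.a], [.a], [.c], [.a,.b], [.d,.b]]),
 (-16, [[.a], [.a], [.c], [.b,.a], [.d,.b]]),
 (56, [[.a], [.a], [.c], [.b,.b], [.d,.a]]),
 (27, [[.a], [.a,.a], [.b], [.b], [.c,.d]]),
 (3, [[.a], [.a,.a], [.b], [.b], [.d,.c]]),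
 (-36, [[.a], [.a,.a], [.b], [.b,.c], [.d]]),
 (-6, [[.a], [.a,.a], [.b], [.b,.d], [.c]]),
 (-105, [[.a], [.a,.a], [.b,.b], [.c], [.d]]),
 (-24, [[.a], [.a,.a], [.b,.c], [.b], [.d]]),
 (-6, [[.a], [.a,.a], [.b,.d], [.b], [.c]]),
 (168, [[.a], [.a,.b], [.a], [.b], [.c,.d]]),
 (-180, [[.a], [.a,.b], [.a], [.b], [.d,.c]]),
 (-120, [[.a], [.a,.b], [.a], [.b,.c], [.d]]),
 (108, [[.a], [.a,.b], [.a], [.b,.d], [.c]]),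
 (-204, [[.a], [.a,.b], [.a,.b], [.c], [.d]]),
 (84, [[.a], [.a,.b], [.a,.c], [.b], [.d]]),
 (-24, [[.a], [.a,.b], [.a,.d], [.b], [.c]]),
 (-144, [[.a], [.a,.b], [.b], [.a], [.c,.d]]),
 (108, [[.a], [.a,.b], [.b], [.a], [.d,.c]]),
 (36, [[.a], [.a,.b], [.b], [.a,.c], [.d]]),
 (-36, [[.a], [.a,.b], [.b], [.a,.d], [.c]]),
 (-36, [[.a], [.a,.b], [.b,.c], [.a], [.d]]),
 (36, [[.a], [.a,.b], [.b,.d], [.a], [.c]]),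
 (-12, [[.a], [.a,.b], [.c], [.a], [.d,.b]]),
 (-48, [[.a], [.a,.c], [.a], [.b], [.d,.b]]),
 (-12, [[.a], [.a,.c], [.a,.b], [.b], [.d]]),
 (-24, [[.a], [.a,.c], [.b], [.a], [.b,.d]]),
 (-12, [[.a], [.a,.c], [.b], [.a,.b], [.d]]),
 (30, [[.a], [.a,.c], [.b], [.a,.d], [.b]]),
 (48, [[.a], [.a,.d], [.a], [.b], [.b,.c]]),
 (-60, [[.a], [.a,.d], [.a,.b], [.b], [.c]]),
 (-24, [[.a], [.a,.d], [.b], [.a], [.b,.c]]),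
 (60, [[.a], [.a,.d], [.b], [.a], [.c,.b]]),
 (-42, [[.a], [.a,.d], [.b], [.a,.c], [.b]]),
 (-60, [[.a], [.b], [.a], [.a,.b], [.c,.d]]),
 (96, [[.a], [.b], [.a], [.a,.b], [.d,.c]]),
 (-120, [[.a], [.b], [.a], [.a,.c], [.b,.d]]),
 (-72, [[.a], [.b], [.a], [.a,.c], [.d,.b]]),
 (144, [[.a], [.b], [.a], [.a,.d], [.b,.c]]),
 (24, [[.a], [.b], [.a], [.a,.d], [.c,.b]]),
 (-96, [[.a], [.b], [.a], [.b,.a], [.c,.d]]),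
 (144, [[.a], [.b], [.a], [.b,.a], [.d,.c]]),
 (36, [[.a], [.b], [.a], [.b,.c], [.d,.a]]),
 (-36, [[.a], [.b], [.a], [.b,.d], [.c,.a]]),
 (-36, [[.a], [.b], [.a], [.c,.a], [.d,.b]]),
 (12, [[.a], [.b], [.a], [.c,.b], [.d,.a]]),
 (-120, [[.a], [.b], [.a,.a], [.b], [.c,.d]]),
 (24, [[.a], [.b], [.a,.a], [.b], [.d,.c]]),
 (156, [[.a], [.b], [.a,.a], [.b,.c], [.d]]),
 (-96, [[.a], [.b], [.a,.a], [.b,.d], [.c]]),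
 (-72, [[.a], [.b], [.a,.b], [.a], [.c,.d]]),
 (24, [[.a], [.b], [.a,.b], [.a], [.d,.c]]),
 (156, [[.a], [.b], [.a,.b], [.a,.c], [.d]]),
 (-168, [[.a], [.b], [.a,.b], [.a,.d], [.c]]),
 (12, [[.a], [.b], [.a,.c], [.a], [.b,.d]]),
 (48, [[.a], [.b], [.a,.c], [.a], [.d,.b]]),
 (-24, [[.a], [.b], [.a,.c], [.a,.d], [.b]]),
 (48, [[.a], [.b], [.a,.d], [.a], [.b,.c]]),
 (12, [[.a], [.b], [.a,.d], [.a,.b], [.c]]),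
 (60, [[.a], [.b], [.b], [.a,.a], [.c,.d]]),
 (-12, [[.a], [.b], [.b], [.a,.a], [.d,.c]]),
 (6, [[.a], [.b], [.b], [.a,.c], [.d,.a]]),
 (48, [[.a], [.b], [.b], [.a,.d], [.c,.a]]),
 (-156, [[.a], [.b], [.b], [.c,.a], [.d,.a]]),
 (-48, [[.a], [.b], [.b,.a], [.a,.c], [.d]]),
 (48, [[.a], [.b], [.b,.d], [.a], [.c,.a]]),
 (-48, [[.a], [.b], [.c], [.a,.a], [.d,.b]]),
 (-6, [[.a], [.b,.b], [.a,.c], [.a], [.d]]),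
 (-36, [[.a], [.b,.b], [.a,.d], [.a], [.c]]),
 (-12, [[.a], [.b,.c], [.a], [.a], [.b,.d]]),
 (6, [[.a], [.b,.c], [.a], [.a], [.d,.b]]),
 (-6, [[.a], [.b,.c], [.a,.a], [.b], [.d]]),
 (18, [[.a], [.b,.d], [.a], [.a], [.c,.b]]),
 (-18, [[.a], [.b,.d], [.a,.a], [.b], [.c]]),
 (12, [[.a], [.c], [.a], [.a,.b], [.d,.b]]),
 (12, [[.a], [.c], [.a], [.b,.a], [.d,.b]]),
 (12, [[.a], [.c], [.a], [.b,.b], [.d,.a]]),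
 (36, [[.a], [.c], [.a,.a], [.b], [.d,.b]]),
 (24, [[.a,.a], [.a,.b], [.b], [.c], [.d]]),
 (-6, [[.a,.a], [.a,.b], [.c], [.b], [.d]]),
 (12, [[.a,.a], [.a,.c], [.b], [.b], [.d]]),
 (-6, [[.a,.a], [.b], [.a], [.b], [.c,.d]]),
 (6, [[.a,.a], [.b], [.a], [.b], [.d,.c]]),
 (30, [[.a,.a], [.b], [.a], [.b,.c], [.d]]),
 (-24, [[.a,.a], [.b], [.a], [.b,.d], [.c]]),
 (-18, [[.a,.a], [.b], [.a,.b], [.c], [.d]]),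
 (-36, [[.a,.a], [.b], [.a,.c], [.b], [.d]]),
 (12, [[.a,.a], [.b], [.a,.d], [.b], [.c]]),
 (18, [[.a,.a], [.b], [.b], [.a,.c], [.d]]),
 (-6, [[.a,.a], [.b], [.b], [.a,.d], [.c]]),
 (6, [[.a,.a], [.b], [.b,.c], [.a], [.d]]),
 (-6, [[.a,.a], [.b], [.b,.d], [.a], [.c]]),
 (-6, [[.a,.b], [.a], [.a], [.b], [.c,.d]]),
 (36, [[.a,.b], [.a], [.a], [.b], [.d,.c]]),
 (30, [[.a,.b], [.a], [.a], [.b,.c], [.d]]),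
 (-54, [[.a,.b], [.a], [.a], [.b,.d], [.c]]),
 (24, [[.a,.b], [.a], [.a,.b], [.c], [.d]]),
 (-12, [[.a,.b], [.a], [.a,.c], [.b], [.d]]),
 (-12, [[.a,.b], [.a], [.a,.d], [.b], [.c]]),
 (12, [[.a,.b], [.a], [.b], [.a], [.c,.d]]),
 (24, [[.a,.b], [.a], [.b], [.a,.c], [.d]]),
 (-48, [[.a,.b], [.a], [.b], [.a,.d], [.c]]),
 (-12, [[.a,.b], [.a], [.b,.c], [.a], [.d]]),
 (12, [[.a,.b], [.a], [.b,.d], [.a], [.c]]),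
 (-24, [[.a,.b], [.a,.a], [.b], [.c], [.d]]),
 (6, [[.a,.b], [.a,.a], [.c], [.b], [.d]]),
 (-24, [[.a,.b], [.a,.b], [.a], [.c], [.d]]),
 (-24, [[.a,.b], [.a,.b], [.c], [.a], [.d]]),
 (-36, [[.a,.b], [.a,.c], [.a], [.b], [.d]]),
 (12, [[.a,.b], [.a,.d], [.a], [.b], [.c]]),
 (-24, [[.a,.b], [.a,.d], [.b], [.a], [.c]]),
 (-36, [[.a,.b], [.b], [.a], [.a], [.c,.d]]),
 (12, [[.a,.b], [.b], [.a], [.a], [.d,.c]]),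
 (24, [[.a,.b], [.b], [.a], [.a,.c], [.d]]),
 (36, [[.a,.b], [.b], [.a,.c], [.a], [.d]]),
 (36, [[.a,.b], [.b], [.a,.d], [.a], [.c]]),
 (-12, [[.a,.b], [.b,.c], [.a], [.a], [.d]]),
 (12, [[.a,.b], [.b,.d], [.a], [.a], [.c]]),
 (24, [[.a,.b], [.c], [.a], [.a], [.d,.b]]),
 (-12, [[.a,.c], [.a], [.b], [.a,.d], [.b]]),
 (-12, [[.a,.c], [.a,.d], [.b], [.a], [.b]]),
 (-12, [[.a,.d], [.a], [.b], [.a,.c], [.b]]),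
 (24, [[.a,.d], [.b], [.a], [.a,.c], [.b]]),
 (-12, [[.b], [.a], [.a], [.a,.b], [.d,.c]]),
 (12, [[.b], [.a], [.a], [.a,.c], [.b,.d]]),
 (12, [[.b], [.a], [.a], [.a,.c], [.d,.b]]),
 (-36, [[.b], [.a], [.a], [.a,.d], [.b,.c]]),
 (12, [[.b], [.a], [.a], [.a,.d], [.c,.b]]),
 (-24, [[.b], [.a], [.a], [.b,.a], [.c,.d]]),
 (-12, [[.b], [.a], [.a], [.b,.a], [.d,.c]]),
 (12, [[.b], [.a], [.a], [.b,.c], [.d,.a]]),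
 (-12, [[.b], [.a], [.a], [.b,.d], [.c,.a]]),
 (-36, [[.b], [.a], [.a], [.c,.b], [.d,.a]]),
 (36, [[.b], [.a], [.a,.a], [.b], [.c,.d]]),
 (-36, [[.b], [.a], [.a,.a], [.b,.c], [.d]]),
 (12, [[.b], [.a], [.a,.a], [.b,.d], [.c]]),
 (24, [[.b], [.a], [.a,.b], [.a], [.c,.d]]),
 (-12, [[.b], [.a], [.a,.b], [.a], [.d,.c]]),
 (24, [[.b], [.a], [.a,.b], [.a,.d], [.c]]),
 (-24, [[.b], [.a], [.a,.c], [.a], [.b,.d]]),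
 (12, [[.b], [.a], [.a,.c], [.a], [.d,.b]]),
 (-12, [[.b], [.a], [.a,.c], [.a,.d], [.b]]),
 (-12, [[.b], [.a], [.a,.d], [.a], [.c,.b]]),
 (24, [[.b], [.a], [.a,.d], [.a,.b], [.c]]),
 (-24, [[.b], [.a], [.a,.d], [.a,.c], [.b]]),
 (-24, [[.b], [.a], [.b], [.a,.a], [.c,.d]]),
 (12, [[.b], [.a], [.b], [.a,.a], [.d,.c]]),
 (-36, [[.b], [.a], [.b], [.a,.c], [.d,.a]]),
 (-12, [[.b], [.a], [.b], [.a,.d], [.c,.a]]),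
 (12, [[.b], [.a], [.b,.a], [.a,.c], [.d]]),
 (12, [[.b], [.a], [.b,.c], [.a], [.d,.a]]),
 (-12, [[.b], [.a], [.b,.d], [.a], [.c,.a]]),
 (6, [[.b], [.a,.b], [.a], [.a], [.c,.d]]),
 (-6, [[.b], [.a,.b], [.a], [.a], [.d,.c]]),
 (6, [[.b], [.a,.b], [.a,.a], [.c], [.d]]),
 (-6, [[.b], [.a,.c], [.a], [.a], [.b,.d]]),
 (-18, [[.b], [.a,.c], [.a], [.a], [.d,.b]]),
 (48, [[.b], [.a,.c], [.a], [.a,.d], [.b]]),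
 (18, [[.b], [.a,.c], [.a,.a], [.b], [.d]]),
 (-6, [[.b], [.a,.d], [.a], [.a], [.b,.c]]),
 (6, [[.b], [.a,.d], [.a], [.a], [.c,.b]]),
 (-6, [[.b], [.a,.d], [.a,.a], [.b], [.c]]),
 (-12, [[.b], [.b], [.a,.c], [.a], [.d,.a]]),
 (12, [[.b,.b], [.a,.c], [.a], [.a], [.d]])]

end Pool.Agent.H569_Schur
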