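import Pool.Agent.H569_Schur.Rank

/-!
The derivation `x_i ↦ [x_3, x_4] x_i` (letters `c`, `d`), and a check of linear identities between words.
-/

set_option autoImplicit false

namespace Pool.Agent.H569_Schur

/-- sparse integer combinations of words, as a tree -/
inductive TZ
  | e
  | n (z : ℤ) (a b c d : TZ)

variable {K : Type} [Field K]

/-- value -/
noncomputable def TZ.eval : TZ → FreeAlgebra K (Fin 4)
  | .e => 0
  | .n z a b c d => ((z : ℤ) : K) • (1 : FreeAlgebra K (Fin 4)) + (mono [.a] * a.eval + (mono [.b] * b.eval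
      + (mono [.c] * c.eval + mono [.d] * d.eval)))

/-- add `z` times a word -/
def TZ.ins : W → ℤ → TZ → TZ
  | [], z, .e => .n z .e .e .e .e
  | [], z, .n y a b c d => .n (y + z) a b c d
  | Lt.a :: w, z, .e => .n 0 (TZ.ins w z .e) .e .e .e
  | Lt.b :: w, z, .e => .n 0 .e (TZ.ins w z .e) .e .e
  | Lt.c :: w, z, .e => .n 0 .e .e (TZ.ins w z .e) .e
  | Lt.d :: w, z, .e => .n 0 .e .e .e (TZ.ins w z .e)
  | Lt.a :: w, z, .n y a b c d => .n y (TZ.ins w z a) b c d
  | Lt.b :: w, z, .n y a b c d => .n y a (TZ.ins w z b) c d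
  | Lt.c :: w, z, .n y a b c d => .n y a b (TZ.ins w z c) d
  | Lt.d :: w, z, .n y a b c d => .n y a b c (TZ.ins w z d)

theorem mono_cons (x : Lt) (w : W) : (mono (x :: w) : FreeAlgebra K (Fin 4)) = mono [x] * mono w := by
  rw [← mono_append]; rfl

theorem TZ.eval_ins (w : W) (z : ℤ) : ∀ t : TZ,
    ((TZ.ins w z t).eval : FreeAlgebra K (Fin 4)) = t.eval + ((z : ℤ) : K) • mono w := by
  induction w with
  | nil =>
    intro t
    cases t with
    | e => simp [TZ.ins, TZ.eval, mono_nil]
    | n y a b c d =>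
      simp only [TZ.ins, TZ.eval, mono_nil, Int.cast_add, add_smul]
      abel
  | cons x w ih =>
    intro t
    rw [mono_cons]
    cases t with
    | e =>
      cases x <;> simp only [TZ.ins, TZ.eval, ih, mul_zero, Int.cast_zero, zero_smul, zero_add,
        add_zero, mul_smul_comm]
    | n y a b c d =>
      cases x <;> simp only [TZ.ins, TZ.eval, ih, mul_add, mul_smul_comm] <;> abel

/-- all coefficients vanish -/
def TZ.isz : TZ → Bool
  | .e => true
  | .n z a b c d => (match z with
    | Int.ofNat 0 => true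
    | _ => false) && (a.isz && (b.isz && (c.isz && d.isz)))

theorem TZ.eval_isz (t : TZ) (h : t.isz = true) : (t.eval : FreeAlgebra K (Fin 4)) = 0 := by
  induction t with
  | e => rfl
  | n z a b c d iha ihb ihc ihd =>
    simp only [TZ.isz, Bool.and_eq_true] at h
    obtain ⟨h0, h1, h2, h3, h4⟩ := h
    have hz : z = 0 := by
      match z, h0 with
      | Int.ofNat 0, _ => rfl
    rw [TZ.eval, iha h1, ihb h2, ihc h3, ihd h4, hz]
    simp

/-- add `z` times every word of a list -/
def TZ.insL (l : List W) (z : ℤ) (t : TZ) : TZ := l.foldr (fun w t => TZ.ins w z t) t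

theorem TZ.eval_insL (l : List W) (z : ℤ) (t : TZ) :
    ((TZ.insL l z t).eval : FreeAlgebra K (Fin 4)) = t.eval + ((z : ℤ) : K) • (l.map mono).sum := by
  induction l with
  | nil => simp [TZ.insL]
  | cons w l ih =>
    have : TZ.insL (w :: l) z t = TZ.ins w z (TZ.insL l z t) := rfl
    rw [this, TZ.eval_ins, ih, List.map_cons, List.sum_cons, smul_add]
    abel

/-- add a combination of brackets -/
def TZ.insB : List (ℤ × List W) → TZ → TZ
  | [], t => t
  | (z, ws) :: l, t => TZ.insL (ex ws).1 z (TZ.insL (ex ws).2 (-z) (TZ.insB l t))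

/-- the combination of brackets -/
noncomputable def comb (l : List (ℤ × List W)) : FreeAlgebra K (Fin 4) :=
  (l.map (fun p => ((p.1 : ℤ) : K) • brk p.2)).sum

theorem TZ.eval_insB (l : List (ℤ × List W)) (t : TZ) :
    ((TZ.insB l t).eval : FreeAlgebra K (Fin 4)) = t.eval + comb l := by
  induction l with
  | nil => simp [TZ.insB, comb]
  | cons p l ih =>
    obtain ⟨z, ws⟩ := p
    rw [TZ.insB, TZ.eval_insL, TZ.eval_insL, ih, comb, comb, List.map_cons, List.sum_cons, brk_eq_ex,
      Int.cast_neg, smul_sub]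
    module

theorem comb_mem (k : ℕ) (hk : 1 ≤ k) (l : List (ℤ × List W)) (h : ∀ p ∈ l, p.2.length = k) :
    (comb l : FreeAlgebra K (Fin 4)) ∈ L K 4 k := by
  induction l with
  | nil => simp [comb]
  | cons p l ih =>
    rw [comb, List.map_cons, List.sum_cons]
    exact Submodule.add_mem _ (Submodule.smul_mem _ _
      (brk_mem_L k hk _ (h p (List.mem_cons_self ..))))
      (ih (fun q hq => h q (List.mem_cons_of_mem _ hq)))

/-- positive and negative words of `δ w` -/
def dex : W → List W × List W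
  | [] => ([], [])
  | x :: w => ((Lt.c :: Lt.d :: x :: w) :: (dex w).1.map (fun u => x :: u),
      (Lt.d :: Lt.c :: x :: w) :: (dex w).2.map (fun u => x :: u))

/-- the algebra map behind the derivation -/
noncomputable def dhom : FreeAlgebra K (Fin 4) →ₐ[K] TrivSqZeroExt (FreeAlgebra K (Fin 4)) (FreeAlgebra K (Fin 4)) :=
  FreeAlgebra.lift K (fun i => TrivSqZeroExt.inl (FreeAlgebra.ι K i) + TrivSqZeroExt.inr
    ((FreeAlgebra.ι K 2 * FreeAlgebra.ι K 3 - FreeAlgebra.ι K 3 * FreeAlgebra.ι K 2) * FreeAlgebra.ι K i))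

theorem dhom_fst (a : FreeAlgebra K (Fin 4)) : (dhom a).fst = a := by
  have : (TrivSqZeroExt.fstHom K (FreeAlgebra K (Fin 4)) (FreeAlgebra K (Fin 4))).comp dhom
      = AlgHom.id K _ := by
    apply FreeAlgebra.hom_ext
    funext i
    simp [dhom]
  exact DFunLike.congr_fun this a

/-- the derivation with `x_i ↦ [x_3, x_4] x_i` -/
noncomputable def dl : FreeAlgebra K (Fin 4) →ₗ[K] FreeAlgebra K (Fin 4) :=
  (TrivSqZeroExt.sndHom (FreeAlgebra K (Fin 4)) (FreeAlgebra K (Fin 4))).restrictScalars K ∘ₗ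
    (dhom (K := K)).toLinearMap

theorem dl_mul (a b : FreeAlgebra K (Fin 4)) : dl (a * b) = dl a * b + a * dl b := by
  have h1 : dl (K := K) (a * b) = (dhom (a * b)).snd := rfl
  have h2 : dl (K := K) a = (dhom a).snd := rfl
  have h3 : dl (K := K) b = (dhom b).snd := rfl
  rw [h1, h2, h3, map_mul, TrivSqZeroExt.snd_mul, dhom_fst, dhom_fst, smul_eq_mul,
    MulOpposite.smul_eq_mul_unop, MulOpposite.unop_op, add_comm]

theorem dl_ι (i : Fin 4) : dl (FreeAlgebra.ι K i) =
    (FreeAlgebra.ι K 2 * FreeAlgebra.ι K 3 - FreeAlgebra.ι K 3 * FreeAlgebra.ι K 2)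
      * FreeAlgebra.ι K i := by
  have h1 : dl (K := K) (FreeAlgebra.ι K i) = (dhom (FreeAlgebra.ι K i)).snd := rfl
  rw [h1, dhom, FreeAlgebra.lift_ι_apply]
  simp

end Pool.Agent.H569_Schur
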