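import Pool.Agent.H569_Schur.DCert

/-!
An element of `L_4` outside `L_5` whose image under the derivation lies in `L_5`.
-/

set_option autoImplicit false

namespace Pool.Agent.H569_Schur

variable {K : Type} [Field K]

theorem mono_one (x : Lt) : (mono [x] : FreeAlgebra K (Fin 4)) = FreeAlgebra.ι K x.fin := by
  simp [mono]

theorem dl_one : dl (1 : FreeAlgebra K (Fin 4)) = 0 := by
  have := dl_mul (K := K) 1 1
  simpa using this

theorem dl_mono (w : W) : dl (K := K) (mono w) = ((dex w).1.map mono).sum - ((dex w).2.map mono).sum := by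
  induction w with
  | nil => simp [dex, mono_nil, dl_one]
  | cons x w ih =>
    rw [mono_cons, dl_mul, ih, mono_one, dl_ι]
    simp only [dex, List.map_cons, List.sum_cons, List.map_map]
    have h1 : ∀ l : List W, (l.map (mono ∘ fun u => x :: u)).sum
        = (FreeAlgebra.ι K x.fin : FreeAlgebra K (Fin 4)) * (l.map mono).sum := by
      intro l
      induction l with
      | nil => simp
      | cons u l ih => simp only [List.map_cons, List.sum_cons, ih, mul_add, Function.comp,
          mono_cons x u, mono_one]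
    have e1 : (mono (Lt.c :: Lt.d :: x :: w) : FreeAlgebra K (Fin 4))
        = FreeAlgebra.ι K 2 * (FreeAlgebra.ι K 3 * (FreeAlgebra.ι K x.fin * mono w)) := by
      rw [mono_cons, mono_cons .d, mono_cons x, mono_one, mono_one, mono_one]; rfl
    have e2 : (mono (Lt.d :: Lt.c :: x :: w) : FreeAlgebra K (Fin 4))
        = FreeAlgebra.ι K 3 * (FreeAlgebra.ι K 2 * (FreeAlgebra.ι K x.fin * mono w)) := by
      rw [mono_cons, mono_cons .c, mono_cons x, mono_one, mono_one, mono_one]; rfl
    rw [h1, h1, e1, e2]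
    generalize FreeAlgebra.ι K x.fin = z
    noncomm_ring

/-- add `z δ(w)` for all words of a list -/
def insDl (l : List W) (z : ℤ) (t : TZ) : TZ :=
  l.foldr (fun w t => TZ.insL (dex w).1 z (TZ.insL (dex w).2 (-z) t)) t

theorem eval_insDl (l : List W) (z : ℤ) (t : TZ) :
    ((insDl l z t).eval : FreeAlgebra K (Fin 4)) = t.eval + ((z : ℤ) : K) • dl (l.map mono).sum := by
  induction l with
  | nil => simp [insDl]
  | cons w l ih =>
    have : insDl (w :: l) z t = TZ.insL (dex w).1 z (TZ.insL (dex w).2 (-z) (insDl l z t)) := rfl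
    rw [this, TZ.eval_insL, TZ.eval_insL, ih, List.map_cons, List.sum_cons, map_add, dl_mono,
      Int.cast_neg]
    module

/-- add `z δ(bracket)` -/
def insDB : List (ℤ × List W) → TZ → TZ
  | [], t => t
  | (z, ws) :: l, t => insDl (ex ws).1 z (insDl (ex ws).2 (-z) (insDB l t))

theorem eval_insDB (l : List (ℤ × List W)) (t : TZ) :
    ((insDB l t).eval : FreeAlgebra K (Fin 4)) = t.eval + dl (comb l) := by
  induction l with
  | nil => simp [insDB, comb]
  | cons p l ih =>
    obtain ⟨z, ws⟩ := p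
    have hc : (comb ((z, ws) :: l) : FreeAlgebra K (Fin 4)) = ((z : ℤ) : K) • brk ws + comb l := by
      simp [comb]
    rw [insDB, eval_insDl, eval_insDl, ih, hc, brk_eq_ex, map_add, map_smul, map_sub, Int.cast_neg]
    module

/-- the element `[x,[x,[x,y²]]] - 2 [x,[xy,[x,y]]] + [x²,[y,[x,y]]]` -/
def vz : List (ℤ × List W) :=
  [(1, [[.a], [.a], [.a], [.b, .b]]), (-2, [[.a], [.a, .b], [.a], [.b]]),
    (1, [[.a, .a], [.b], [.a], [.b]])]

/-- the element `-6 v` -/
def vz6 : List (ℤ × List W) :=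
  [(-6, [[.a], [.a], [.a], [.b, .b]]), (12, [[.a], [.a, .b], [.a], [.b]]),
    (-6, [[.a, .a], [.b], [.a], [.b]])]

theorem comb6 : (comb vz6 : FreeAlgebra K (Fin 4)) = (-6 : K) • comb vz := by
  simp only [comb, vz6, vz, List.map_cons, List.map_nil, List.sum_cons, List.sum_nil]
  push_cast
  module

theorem check_dv : (insDB vz6 (TZ.insB certD .e)).isz = true := by decide +kernel

theorem check_len : ∀ p ∈ certD, p.2.length = 5 := by decide +kernel

theorem dv_mem [CharZero K] : dl (comb vz : FreeAlgebra K (Fin 4)) ∈ L K 4 5 := by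
  have h := TZ.eval_isz (K := K) _ check_dv
  rw [eval_insDB, TZ.eval_insB, comb6, map_smul] at h
  have h0 : (TZ.e.eval : FreeAlgebra K (Fin 4)) = 0 := rfl
  rw [h0, zero_add] at h
  have h6 : (6 : K) ≠ 0 := by exact_mod_cast (by norm_num : (6 : ℕ) ≠ 0)
  have h2 : dl (comb vz : FreeAlgebra K (Fin 4)) = (6 : K)⁻¹ • comb certD := by
    have h3 : comb certD = (6 : K) • dl (comb vz : FreeAlgebra K (Fin 4)) := by
      have h4 := eq_neg_of_add_eq_zero_left h
      rw [h4]; module
    rw [h3, smul_smul, inv_mul_cancel₀ h6, one_smul]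
  rw [h2]
  exact Submodule.smul_mem _ _ (comb_mem 5 (by norm_num) _ check_len)

theorem v_mem_L : (comb vz : FreeAlgebra K (Fin 4)) ∈ L K 4 4 :=
  comb_mem 4 (by norm_num) _ (by decide)

theorem comb_mem_G (e : Fin 4 → ℕ) (l : List (ℤ × List W)) (h : ∀ p ∈ l, cnt p.2.flatten = e) :
    (comb l : FreeAlgebra K (Fin 4)) ∈ G K 4 e := by
  induction l with
  | nil => simp [comb]
  | cons p l ih =>
    rw [comb, List.map_cons, List.sum_cons]
    refine Submodule.add_mem _ (Submodule.smul_mem _ _ ?_)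
      (ih (fun q hq => h q (List.mem_cons_of_mem _ hq)))
    rw [← h p (List.mem_cons_self ..)]
    exact brk_mem_G _

theorem v_mem_G : (comb vz : FreeAlgebra K (Fin 4)) ∈ G K 4 ![3, 2, 0, 0] := by
  apply comb_mem_G
  decide

/-- a functional vanishing on the Lie elements of degree five -/
def phi (w : W) : ℤ :=
  if w = [.b, .a, .b, .a, .a] then 1 else if w = [.a, .a, .b, .a, .b] then -1 else 0

theorem check_phi : ∀ w ∈ aw 5 3 2 0 0, ∀ ws ∈ splits 5 w, evz phi ws = 0 := by decide +kernel

theorem phi_vanish (x : FreeAlgebra K (Fin 4)) (hx : x ∈ L K 4 5 ⊓ G K 4 ![3, 2, 0, 0]) :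
    fn (K := K) phi x = 0 := by
  have h := L_inf_G (K := K) 5 (by norm_num) ![3, 2, 0, 0] hx
  clear hx
  induction h using Submodule.span_induction with
  | mem x hx =>
    obtain ⟨ws, hl, h0, hc, rfl⟩ := hx
    rw [fn_brk]
    have h1 : ws.flatten ∈ aw 5 3 2 0 0 := mem_aw' 3 2 0 0 _ hc
    have h2 : ws ∈ splits 5 ws.flatten := mem_splits 5 ws hl h0
    rw [check_phi _ h1 _ h2, Int.cast_zero]
  | zero => simp
  | add x y _ _ hx hy => rw [map_add, hx, hy, add_zero]
  | smul c x _ hx => rw [map_smul, hx, smul_zero]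

theorem v_not_mem [CharZero K] : (comb vz : FreeAlgebra K (Fin 4)) ∉ L K 4 5 := by
  intro h
  have h1 := phi_vanish (K := K) _ ⟨h, v_mem_G⟩
  have h2 : fn (K := K) phi (comb vz) = ((-4 : ℤ) : K) := by
    simp only [comb, vz, List.map_cons, List.map_nil, List.sum_cons, List.sum_nil, map_add, map_smul,
      map_zero, fn_brk, smul_eq_mul]
    have e1 : evz phi [[.a], [.a], [.a], [.b, .b]] = 0 := by decide
    have e2 : evz phi [[.a], [.a, .b], [.a], [.b]] = 0 := by decide
    have e3 : evz phi [[.a, .a], [.b], [.a], [.b]] = -4 := by decide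
    rw [e1, e2, e3]
    push_cast
    ring
  rw [h2] at h1
  have : ((-4 : ℤ) : K) ≠ 0 := by exact_mod_cast (by norm_num : (-4 : ℤ) ≠ 0)
  exact this h1

end Pool.Agent.H569_Schur
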