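import Mathlib

/-!
Definitions for the result on the lower central series of `T(V)` and the Schur functors `𝒢_lam`.
-/

set_option autoImplicit false

namespace Pool.Agent.H569_Schur

/-- The Young diagram `(lam, 1^m)`: append `m` rows of length `1` below `lam`. -/
def addCol (lam : YoungDiagram) (m : ℕ) : YoungDiagram where
  cells := lam.cells ∪ Finset.range (lam.colLen 0 + m) ×ˢ {0}
  isLowerSet := by
    rintro ⟨a, b⟩ ⟨c, d⟩ h hab
    simp only [Finset.coe_union, Set.mem_union, Finset.mem_coe, Finset.mem_product,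
      Finset.mem_range, Finset.mem_singleton, YoungDiagram.mem_cells] at hab ⊢
    obtain ⟨h1, h2⟩ := Prod.mk_le_mk.1 h
    rcases hab with hab | hab
    · exact Or.inl (lam.up_left_mem h1 h2 hab)
    · exact Or.inr ⟨lt_of_le_of_lt h1 hab.1, by omega⟩

/-- The dimension of the weight space of weight `e` in the Schur functor `𝕊_mu (K^n)`: the number of
semistandard tableaux of shape `mu` with entries `< n` and with `e i` entries equal to `i`. -/
noncomputable def kostka (n : ℕ) (mu : YoungDiagram) (e : Fin n → ℕ) : ℕ :=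
  Nat.card {T : SemistandardYoungTableau mu //
    (∀ c ∈ mu.cells, T c.1 c.2 < n) ∧
    ∀ i : Fin n, (mu.cells.filter (fun c => T c.1 c.2 = (i : ℕ))).card = e i}

/-- The dimension of the weight space of weight `d` in
`𝒢_lam(V) = S(V) ⊗ (⨁_{j ≥ 0} 𝕊_{(lam, 1^{2j})}(V))`, `V = K^n`: every weight space of `S(V)` has
dimension one, so it is the sum over `j` and over the weights `e ≤ d` of the dimension of the weight
space `e` of `𝕊_{(lam, 1^{2j})}(V)`; only `j ≤ |d|` can contribute. -/
noncomputable def dimG (n : ℕ) (lam : YoungDiagram) (d : Fin n → ℕ) : ℕ :=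
  ∑ j ∈ Finset.range (∑ i, d i + 1), ∑ e ∈ Finset.Iic d, kostka n (addCol lam (2 * j)) e

variable (K : Type) [Field K] (n : ℕ)

/-- The lower central series of the free associative algebra `T(V)`, `V = K^n`:
`L 1 = T(V)` and `L (k+1) = [T(V), L k]`, the span of all `a * b - b * a` with `b ∈ L k`
(`L 0 = T(V)` is not used). -/
def L : ℕ → Submodule K (FreeAlgebra K (Fin n))
  | 0 => ⊤
  | 1 => ⊤
  | (k + 2) => Submodule.span K
      {x | ∃ a : FreeAlgebra K (Fin n), ∃ b ∈ L (k + 1), x = a * b - b * a}

/-- The part of multidegree `d` of `T(V)`: the span of the words with `d i` letters `x_i`. -/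
def G (d : Fin n → ℕ) : Submodule K (FreeAlgebra K (Fin n)) :=
  Submodule.span K {x | ∃ w : List (Fin n), (∀ i, w.count i = d i) ∧
    x = (w.map (FreeAlgebra.ι K)).prod}

/-- The dimension of the part of multidegree `d` (the weight space of weight `d`) of
`B_k = L k / L (k+1)`. -/
noncomputable def dimB (k : ℕ) (d : Fin n → ℕ) : ℕ :=
  Module.finrank K (↥(L K n k ⊓ G K n d) ⧸
    (L K n (k + 1) ⊓ G K n d).submoduleOf (L K n k ⊓ G K n d))

end Pool.Agent.H569_Schur
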