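import Pool.Agent.H569_Schur.Kostka

/-! An inequality for the characters of the functors `𝒢_lam` (proved by helper528 as a lemma job). -/

set_option autoImplicit false

namespace Pool.Agent.H569_Schur

theorem kostka_zero_528 (n : ℕ) (mu : YoungDiagram) (e : Fin n → ℕ) (h : mu.card ≠ ∑ i, e i) :
    kostka n mu e = 0 := by
  unfold kostka
  rw [Nat.card_eq_zero]
  left
  refine ⟨fun T => h ?_⟩
  obtain ⟨T, h1, h2⟩ := T
  have h3 : ∀ c ∈ mu.cells, (⟨T c.1 c.2 % (n + 1), Nat.mod_lt _ (by omega)⟩ : Fin (n + 1)) ∈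
      (Finset.univ : Finset (Fin (n + 1))) := fun c _ => Finset.mem_univ _
  have h4 : mu.cells.card = ∑ i ∈ Finset.range n, (mu.cells.filter (fun c => T c.1 c.2 = i)).card :=
    Finset.card_eq_sum_card_fiberwise (f := fun c : ℕ × ℕ => T c.1 c.2)
      (fun c hc => by
        rw [Finset.coe_range, Set.mem_Iio]
        exact h1 c hc)
  rw [YoungDiagram.card, h4, Finset.sum_range]
  exact Finset.sum_congr rfl fun i _ => h2 i

theorem sortedGE_append_528 (w : List ℕ) (hw : w.SortedGE) (hpos : ∀ x ∈ w, 0 < x) (m : ℕ) :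
    (w ++ List.replicate m 1).SortedGE := by
  have h1 : List.Pairwise (· ≥ ·) (w ++ List.replicate m 1) := by
    rw [List.pairwise_append]
    refine ⟨hw.pairwise, ?_, ?_⟩
    · rw [List.pairwise_replicate]
      right; exact le_refl _
    · intro a ha b hb
      rw [List.mem_replicate] at hb
      rw [hb.2]
      exact hpos a ha
  exact h1.sortedGE

theorem addCol_eq_528 (lam : YoungDiagram) (m : ℕ) :
    addCol lam m = YoungDiagram.ofRowLens (lam.rowLens ++ List.replicate m 1)
      (sortedGE_append_528 _ lam.rowLens_sorted lam.pos_of_mem_rowLens m) := by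
  ext ⟨a, b⟩
  rw [YoungDiagram.mem_cells, YoungDiagram.mem_cells, YoungDiagram.mem_ofRowLens]
  have h0 : (a, b) ∈ addCol lam m ↔ (a, b) ∈ lam ∨ (a < lam.colLen 0 + m ∧ b = 0) := by
    rw [← YoungDiagram.mem_cells]
    change (a, b) ∈ lam.cells ∪ Finset.range (lam.colLen 0 + m) ×ˢ {0} ↔ _
    rw [Finset.mem_union, Finset.mem_product, Finset.mem_range, Finset.mem_singleton,
      YoungDiagram.mem_cells]
  rw [h0, YoungDiagram.mem_iff_lt_rowLen]
  have hlen : (lam.rowLens ++ List.replicate m 1).length = lam.colLen 0 + m := by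
    rw [List.length_append, YoungDiagram.length_rowLens, List.length_replicate]
  have hz : lam.colLen 0 ≤ a → lam.rowLen a = 0 := by
    intro h
    by_contra hne
    have h1 : (a, 0) ∈ lam := YoungDiagram.mem_iff_lt_rowLen.2 (Nat.pos_of_ne_zero hne)
    have h2 := YoungDiagram.mem_iff_lt_colLen.1 h1
    omega
  have hp : a < lam.colLen 0 → 0 < lam.rowLen a := by
    intro h
    exact YoungDiagram.mem_iff_lt_rowLen.1 (YoungDiagram.mem_iff_lt_colLen.2 h)
  have hget : ∀ h : a < (lam.rowLens ++ List.replicate m 1).length,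
      (lam.rowLens ++ List.replicate m 1)[a] = if a < lam.colLen 0 then lam.rowLen a else 1 := by
    intro h
    rw [List.getElem_append]
    simp only [YoungDiagram.length_rowLens]
    split_ifs with h1
    · exact YoungDiagram.get_rowLens
    · simp
  constructor
  · rintro (h | ⟨h, hb⟩)
    · have h1 : a < lam.colLen 0 := by
        by_contra hc
        have := hz (by omega)
        omega
      refine ⟨by rw [hlen]; omega, ?_⟩
      simp only
      rw [hget, if_pos h1]
      exact h
    · refine ⟨by rw [hlen]; omega, ?_⟩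
      simp only
      rw [hget]
      split_ifs with h1
      · have := hp h1; omega
      · omega
  · rintro ⟨h, h1⟩
    simp only at h h1
    rw [hget] at h1
    rw [hlen] at h
    split_ifs at h1 with h2
    · exact Or.inl h1
    · exact Or.inr ⟨h, by omega⟩

theorem card_cellsOfRowLens_528 (w : List ℕ) : (YoungDiagram.cellsOfRowLens w).card = w.sum := by
  induction w with
  | nil => rfl
  | cons a w ih =>
    rw [YoungDiagram.cellsOfRowLens, Finset.card_union_of_disjoint, Finset.card_map, ih,
      Finset.card_product, Finset.card_singleton, Finset.card_range, one_mul, List.sum_cons]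
    rw [Finset.disjoint_left]
    rintro ⟨x, y⟩ h1 h2
    rw [Finset.mem_product, Finset.mem_singleton] at h1
    rw [Finset.mem_map] at h2
    obtain ⟨⟨x', y'⟩, _, h3⟩ := h2
    have h4 := congrArg Prod.fst h3
    simp at h4
    simp at h1
    omega

theorem sum_rowLens_528 (lam : YoungDiagram) : lam.rowLens.sum = lam.card := by
  conv_rhs => rw [← YoungDiagram.ofRowLens_to_rowLens_eq_self (μ := lam)]
  exact (card_cellsOfRowLens_528 _).symm

/-- the computable version of `dimG` -/
def G528 (d : Fin 4 → ℕ) (w : List ℕ) : ℕ :=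
  ∑ j ∈ Finset.range (∑ i, d i + 1), ∑ e ∈ Finset.Iic d,
    if w.sum + 2 * j = e 0 + e 1 + e 2 + e 3 then
      kc (List.ofFn e).reverse (w ++ List.replicate (2 * j) 1) else 0

theorem dimG_eq_528 (lam : YoungDiagram) (d : Fin 4 → ℕ) :
    dimG 4 lam d = G528 d lam.rowLens := by
  unfold dimG G528
  refine Finset.sum_congr rfl fun j _ => Finset.sum_congr rfl fun e _ => ?_
  have hcard : (addCol lam (2 * j)).card = lam.rowLens.sum + 2 * j := by
    rw [addCol_eq_528]
    change (YoungDiagram.cellsOfRowLens _).card = _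
    rw [card_cellsOfRowLens_528, List.sum_append, List.sum_replicate, smul_eq_mul, mul_one]
  split_ifs with h
  · rw [addCol_eq_528, kostka_eq]
  · apply kostka_zero_528
    rw [hcard, Fin.sum_univ_four]
    exact h

theorem dimG_zero_528 (lam : YoungDiagram) (d : Fin 4 → ℕ) (h : ∑ i, d i < lam.card) :
    dimG 4 lam d = 0 := by
  unfold dimG
  refine Finset.sum_eq_zero fun j _ => Finset.sum_eq_zero fun e he => ?_
  apply kostka_zero_528
  have h1 : ∑ i, e i ≤ ∑ i, d i := Finset.sum_le_sum fun i _ => (Finset.mem_Iic.1 he) i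
  have h2 : lam.card ≤ (addCol lam (2 * j)).card :=
    Finset.card_le_card Finset.subset_union_left
  omega

def L528 : List (List ℕ) :=
  [[], [1], [2], [1, 1], [3], [2, 1], [1, 1, 1], [4], [3, 1], [2, 2], [2, 1, 1], [1, 1, 1, 1],
    [5], [4, 1], [3, 2], [3, 1, 1], [2, 2, 1], [2, 1, 1, 1], [1, 1, 1, 1, 1]]

theorem mem_L528 (w : List ℕ) (hw : List.Pairwise (· ≥ ·) w) (hpos : ∀ x ∈ w, 0 < x)
    (hs : w.sum ≤ 5) : w ∈ L528 := by
  rcases w with _ | ⟨a, _ | ⟨b, _ | ⟨c, _ | ⟨d, _ | ⟨e, _ | ⟨f, l⟩⟩⟩⟩⟩⟩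
  · decide
  · simp at hw hpos hs
    interval_cases a <;> decide
  · simp at hw hpos hs
    obtain ⟨h1, h2⟩ := hpos
    have : a ≤ 5 := by omega
    have : b ≤ 5 := by omega
    interval_cases a <;> interval_cases b <;> first | decide | omega
  · simp at hw hpos hs
    obtain ⟨h1, h2, h3⟩ := hpos
    have : a ≤ 3 := by omega
    have : b ≤ 3 := by omega
    have : c ≤ 3 := by omega
    interval_cases a <;> interval_cases b <;> interval_cases c <;> first | decide | omega
  · simp at hw hpos hs
    obtain ⟨h1, h2, h3, h4⟩ := hpos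
    have : a ≤ 2 := by omega
    have : b ≤ 2 := by omega
    have : c ≤ 2 := by omega
    have : d ≤ 2 := by omega
    interval_cases a <;> interval_cases b <;> interval_cases c <;> interval_cases d <;>
      first | decide | omega
  · simp at hw hpos hs
    obtain ⟨h1, h2, h3, h4, h5⟩ := hpos
    have e1 : a = 1 := by omega
    have e2 : b = 1 := by omega
    have e3 : c = 1 := by omega
    have e4 : d = 1 := by omega
    have e5 : e = 1 := by omega
    subst e1 e2 e3 e4 e5
    decide
  · simp at hpos hs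
    omega

theorem check_528 : ∀ w ∈ L528,
    6 * G528 ![2, 2, 1, 0] w + 3 * G528 ![3, 2, 0, 0] w ≤
      G528 ![3, 2, 1, 1] w + 3 * G528 ![2, 1, 1, 0] w + 9 * G528 ![2, 2, 0, 0] w := by
  decide +kernel

/-- the inequality -/
theorem dimG_ineq (lam : YoungDiagram) :
    6 * dimG 4 lam ![2, 2, 1, 0] + 3 * dimG 4 lam ![3, 2, 0, 0] ≤
      dimG 4 lam ![3, 2, 1, 1] + 3 * dimG 4 lam ![2, 1, 1, 0] + 9 * dimG 4 lam ![2, 2, 0, 0] := by
  rcases Nat.lt_or_ge 5 lam.card with h | h
  · rw [dimG_zero_528 lam ![2, 2, 1, 0] (by simpa [Fin.sum_univ_four] using h),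
      dimG_zero_528 lam ![3, 2, 0, 0] (by simpa [Fin.sum_univ_four] using h)]
    simp
  · simp only [dimG_eq_528]
    apply check_528
    exact mem_L528 _ lam.rowLens_sorted.pairwise lam.pos_of_mem_rowLens
      (by rw [sum_rowLens_528]; exact h)

end Pool.Agent.H569_Schur

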