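import Pool.Agent.H569_Schur.Defs

/-! The branching rule for the number of semistandard tableaux with given content (proved by helper463
as a lemma job). -/

set_option autoImplicit false

namespace Pool.Agent.H569_Schur

def hd : List ℕ → ℕ
  | [] => 0
  | b :: _ => b

/-- all row length lists obtained from `w` by removing a horizontal strip of size `m` -/
def strips : List ℕ → ℕ → List (List ℕ)
  | [], m => if m = 0 then [[]] else []
  | a :: l, m => (List.range (a - hd l + 1)).flatMap (fun t =>
      if t ≤ m then (strips l (m - t)).map (fun l' => (a - t) :: l') else [])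

/-- number of chains: `kc es w`, where `es` lists the multiplicities of the entries, largest entry first -/
def kc : List ℕ → List ℕ → ℕ
  | [], w => if w.all (fun x => x == 0) then 1 else 0
  | m :: es, w => ((strips w m).map (kc es)).sum

theorem kostka_eq_aux_strips_nodup (w : List ℕ) : ∀ m, (strips w m).Nodup := by
  induction w with
  | nil =>
    intro m
    rw [strips]
    split_ifs <;> simp
  | cons a l ih =>
    intro m
    rw [strips, List.nodup_flatMap]
    refine ⟨fun t _ => ?_, ?_⟩
    · split_ifs
      · exact (ih _).map fun x y h => (List.cons.inj h).2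
      · simp
    · refine List.Nodup.pairwise_of_forall_ne (List.nodup_range) ?_
      intro t ht t' ht' hne
      rw [Function.onFun, List.disjoint_left]
      intro x hx hx'
      split_ifs at hx hx' with h1 h2
      · rw [List.mem_map] at hx hx'
        obtain ⟨l1, _, rfl⟩ := hx
        obtain ⟨l2, _, h4⟩ := hx'
        have h5 := (List.cons.inj h4).1
        rw [List.mem_range] at ht ht'
        omega
      · simp at hx'
      · simp at hx
      · simp at hx

theorem kostka_eq_aux_sum (w : List ℕ) : w.sum = ∑ i ∈ Finset.range w.length, w.getD i 0 := by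
  induction w with
  | nil => simp
  | cons a l ih =>
    rw [List.sum_cons, List.length_cons, Finset.sum_range_succ', ih, List.getD_cons_zero, add_comm]
    rfl

theorem kostka_eq_aux_mem_strips (w : List ℕ) : w.SortedGE → ∀ (m : ℕ) (w' : List ℕ),
    w' ∈ strips w m ↔ w'.length = w.length ∧
      (∀ i, w.getD (i + 1) 0 ≤ w'.getD i 0 ∧ w'.getD i 0 ≤ w.getD i 0) ∧ w.sum = w'.sum + m := by
  induction w with
  | nil =>
    intro _ m w'
    rw [strips]
    constructor
    · intro h
      split_ifs at h with hm
      · rw [List.mem_singleton] at h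
        subst h
        simp [hm]
      · simp at h
    · rintro ⟨h1, h2, h3⟩
      have h4 : w' = [] := List.length_eq_zero_iff.1 (by simpa using h1)
      subst h4
      have : m = 0 := by simpa using h3.symm
      simp [this]
  | cons a l ih =>
    intro hs m w'
    have hsl : l.SortedGE := (List.pairwise_cons.1 hs.pairwise).2.sortedGE
    have hhd : hd l ≤ a := by
      cases l with
      | nil => simp [hd]
      | cons b l =>
        exact (List.pairwise_cons.1 hs.pairwise).1 b (by simp)
    have hhd' : hd l = l.getD 0 0 := by cases l <;> simp [hd]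
    rw [strips, List.mem_flatMap]
    constructor
    · rintro ⟨t, ht, hx⟩
      rw [List.mem_range] at ht
      split_ifs at hx with h1
      · rw [List.mem_map] at hx
        obtain ⟨l', hl', rfl⟩ := hx
        obtain ⟨h2, h3, h4⟩ := (ih hsl _ _).1 hl'
        refine ⟨by simp [h2], ?_, ?_⟩
        · intro i
          cases i with
          | zero =>
            simp only [List.getD_cons_succ, List.getD_cons_zero]
            omega
          | succ i =>
            simp only [List.getD_cons_succ]
            exact h3 i
        · simp only [List.sum_cons]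
          omega
      · simp at hx
    · rintro ⟨h1, h2, h3⟩
      cases w' with
      | nil => simp at h1
      | cons b l' =>
        have h4 := h2 0
        simp only [List.getD_cons_succ, List.getD_cons_zero] at h4
        have h5 : l'.length = l.length := by simpa using h1
        have h6 : ∀ i, l.getD (i + 1) 0 ≤ l'.getD i 0 ∧ l'.getD i 0 ≤ l.getD i 0 := by
          intro i
          have := h2 (i + 1)
          simpa only [List.getD_cons_succ] using this
        have h7 : l'.sum ≤ l.sum := by
          rw [kostka_eq_aux_sum, kostka_eq_aux_sum, h5]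
          exact Finset.sum_le_sum fun i _ => (h6 i).2
        simp only [List.sum_cons] at h3
        refine ⟨a - b, ?_, ?_⟩
        · rw [List.mem_range]
          omega
        · rw [if_pos (by omega), List.mem_map]
          refine ⟨l', (ih hsl _ _).2 ⟨h5, h6, by omega⟩, ?_⟩
          rw [show a - (a - b) = b by omega]

theorem kostka_eq_aux_card_fib {α β : Type*} (s : Finset α) (P : α → β → Prop)
    (hfin : ∀ a ∈ s, Finite {b // P a b}) :
    Finite {q : α × β // q.1 ∈ s ∧ P q.1 q.2} ∧
    Nat.card {q : α × β // q.1 ∈ s ∧ P q.1 q.2} = ∑ a ∈ s, Nat.card {b // P a b} := by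
  let e : {q : α × β // q.1 ∈ s ∧ P q.1 q.2} ≃ Σ a : s, {b // P a b} :=
    { toFun := fun q => ⟨⟨q.1.1, q.2.1⟩, ⟨q.1.2, q.2.2⟩⟩
      invFun := fun q => ⟨(q.1.1, q.2.1), q.1.2, q.2.2⟩
      left_inv := fun _ => rfl
      right_inv := fun _ => rfl }
  have : ∀ a : s, Finite {b // P a b} := fun a => hfin a.1 a.2
  refine ⟨Finite.of_equiv _ e.symm, ?_⟩
  rw [Nat.card_congr e, Nat.card_sigma, ← Finset.sum_coe_sort s]

/-- fillings of the diagram with rows `r` -/
def kostka_eq_aux_P (n : ℕ) (w : List ℕ) (e : ℕ → ℕ) (f : ℕ → ℕ → ℕ) : Prop :=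
  (∀ i j1 j2, j1 < j2 → j2 < w.getD i 0 → f i j1 ≤ f i j2) ∧
  (∀ i1 i2 j, i1 < i2 → j < w.getD i2 0 → f i1 j < f i2 j) ∧
  (∀ i j, w.getD i 0 ≤ j → f i j = 0) ∧
  (∀ i j, j < w.getD i 0 → f i j < n) ∧
  (∀ k < n, ∑ i ∈ Finset.range w.length,
    ((Finset.range (w.getD i 0)).filter (fun j => f i j = k)).card = e k)

/-- the rows of the entries smaller than `n` -/
def kostka_eq_aux_cut (n : ℕ) (w : List ℕ) (f : ℕ → ℕ → ℕ) : List ℕ :=
  List.ofFn fun i : Fin w.length =>
    ((Finset.range (w.getD i 0)).filter (fun j => f i j < n)).card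

theorem kostka_eq_aux_cut_length (n : ℕ) (w : List ℕ) (f : ℕ → ℕ → ℕ) :
    (kostka_eq_aux_cut n w f).length = w.length := by
  rw [kostka_eq_aux_cut, List.length_ofFn]

theorem kostka_eq_aux_cut_getD (n : ℕ) (w : List ℕ) (f : ℕ → ℕ → ℕ) (i : ℕ) :
    (kostka_eq_aux_cut n w f).getD i 0 =
      ((Finset.range (w.getD i 0)).filter (fun j => f i j < n)).card := by
  by_cases h : i < w.length
  · rw [List.getD_eq_getElem _ _ (by rwa [kostka_eq_aux_cut_length])]
    unfold kostka_eq_aux_cut
    rw [List.getElem_ofFn]
  · rw [List.getD_eq_default _ _ (by rw [kostka_eq_aux_cut_length]; omega),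
      List.getD_eq_default w _ (by omega)]
    simp

theorem kostka_eq_aux_lt_cut (n : ℕ) (w : List ℕ) (f : ℕ → ℕ → ℕ)
    (hf : ∀ i j1 j2, j1 < j2 → j2 < w.getD i 0 → f i j1 ≤ f i j2) (i j : ℕ) :
    j < (kostka_eq_aux_cut n w f).getD i 0 ↔ j < w.getD i 0 ∧ f i j < n := by
  rw [kostka_eq_aux_cut_getD]
  constructor
  · intro h
    by_contra hc
    have hsub : (Finset.range (w.getD i 0)).filter (fun j => f i j < n) ⊆ Finset.range j := by
      intro x hx
      rw [Finset.mem_filter, Finset.mem_range] at hx
      rw [Finset.mem_range]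
      by_contra hxj
      apply hc
      refine ⟨by omega, ?_⟩
      rcases Nat.lt_or_ge j x with h1 | h1
      · exact (hf i j x h1 hx.1).trans_lt hx.2
      · have : x = j := by omega
        rw [← this]
        exact hx.2
    have := Finset.card_le_card hsub
    rw [Finset.card_range] at this
    omega
  · rintro ⟨h1, h2⟩
    have hsub : Finset.range (j + 1) ⊆ (Finset.range (w.getD i 0)).filter (fun j => f i j < n) := by
      intro x hx
      rw [Finset.mem_range] at hx
      rw [Finset.mem_filter, Finset.mem_range]
      refine ⟨by omega, ?_⟩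
      rcases Nat.lt_or_ge x j with h3 | h3
      · exact (hf i x j h3 h1).trans_lt h2
      · have : x = j := by omega
        rw [this]
        exact h2
    have := Finset.card_le_card hsub
    rw [Finset.card_range] at this
    omega

theorem kostka_eq_aux_anti (w : List ℕ) (hw : w.SortedGE) (i j : ℕ) (hij : i ≤ j) :
    w.getD j 0 ≤ w.getD i 0 := by
  by_cases h : j < w.length
  · rw [List.getD_eq_getElem _ _ h, List.getD_eq_getElem _ _ (by omega)]
    exact hw.getElem_ge_getElem_of_le hij
  · rw [List.getD_eq_default w _ (by omega)]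
    exact Nat.zero_le _

theorem kostka_eq_aux_fwd (n : ℕ) (w : List ℕ) (hw : w.SortedGE) (e : ℕ → ℕ) (f : ℕ → ℕ → ℕ)
    (hf : kostka_eq_aux_P (n + 1) w e f) :
    kostka_eq_aux_cut n w f ∈ (strips w (e n)).toFinset ∧
      kostka_eq_aux_P n (kostka_eq_aux_cut n w f) e
        (fun i j => if j < (kostka_eq_aux_cut n w f).getD i 0 then f i j else 0) := by
    obtain ⟨h1, h2, h3, h4, h5⟩ := hf
    have hlt := kostka_eq_aux_lt_cut n w f h1
    refine ⟨?_, ?_, ?_, ?_, ?_, ?_⟩
    · rw [List.mem_toFinset, kostka_eq_aux_mem_strips w hw]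
      refine ⟨kostka_eq_aux_cut_length _ _ _, ?_, ?_⟩
      · intro i
        constructor
        · by_contra hc
          have hc' : (kostka_eq_aux_cut n w f).getD i 0 < w.getD (i + 1) 0 := by omega
          have h6 := h2 i (i + 1) _ (Nat.lt_succ_self i) hc'
          have h7 := h4 _ _ hc'
          have h8 := (hlt i ((kostka_eq_aux_cut n w f).getD i 0)).2
            ⟨lt_of_lt_of_le hc' (kostka_eq_aux_anti w hw _ _ (Nat.le_succ i)), by omega⟩
          exact lt_irrefl _ h8
        · by_contra hc
          have hc' : w.getD i 0 < (kostka_eq_aux_cut n w f).getD i 0 := by omega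
          exact lt_irrefl _ ((hlt i (w.getD i 0)).1 hc').1
      · rw [kostka_eq_aux_sum, kostka_eq_aux_sum, kostka_eq_aux_cut_length,
          ← h5 n (Nat.lt_succ_self n), ← Finset.sum_add_distrib]
        refine Finset.sum_congr rfl fun i _ => ?_
        rw [kostka_eq_aux_cut_getD, ← Finset.card_union_of_disjoint]
        · rw [← Finset.filter_or, Finset.filter_true_of_mem, Finset.card_range]
          intro j hj
          have := h4 i j (Finset.mem_range.1 hj)
          omega
        · rw [Finset.disjoint_left]
          intro x hx hx'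
          rw [Finset.mem_filter] at hx hx'
          omega
    · intro i j1 j2 h6 h7
      have h7' : j1 < (kostka_eq_aux_cut n w f).getD i 0 := h6.trans h7
      simp only at h7 ⊢
      rw [if_pos h7', if_pos h7]
      exact h1 i j1 j2 h6 ((hlt i j2).1 h7).1
    · intro i1 i2 j h6 h7
      simp only at h7 ⊢
      have h8 := (hlt i2 j).1 h7
      have h9 := h2 i1 i2 j h6 h8.1
      have h10 : j < (kostka_eq_aux_cut n w f).getD i1 0 :=
        (hlt i1 j).2 ⟨lt_of_lt_of_le h8.1 (kostka_eq_aux_anti w hw _ _ h6.le), by omega⟩
      rw [if_pos h10, if_pos h7]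
      exact h9
    · intro i j h6
      simp only at h6 ⊢
      rw [if_neg (by omega)]
    · intro i j h6
      simp only at h6 ⊢
      rw [if_pos h6]
      exact ((hlt i j).1 h6).2
    · intro k hk
      rw [← h5 k (by omega)]
      simp only [kostka_eq_aux_cut_length]
      refine Finset.sum_congr rfl fun i _ => ?_
      congr 1
      ext j
      rw [Finset.mem_filter, Finset.mem_filter, Finset.mem_range, Finset.mem_range]
      constructor
      · rintro ⟨h6, h7⟩
        rw [if_pos h6] at h7
        exact ⟨((hlt i j).1 h6).1, h7⟩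
      · rintro ⟨h6, h7⟩
        have h8 : j < (kostka_eq_aux_cut n w f).getD i 0 := (hlt i j).2 ⟨h6, by omega⟩
        rw [if_pos h8]
        exact ⟨h8, h7⟩

theorem kostka_eq_aux_bwd (n : ℕ) (w : List ℕ) (hw : w.SortedGE) (e : ℕ → ℕ)
    (w' : List ℕ) (f : ℕ → ℕ → ℕ) (hq : w' ∈ (strips w (e n)).toFinset)
    (hf : kostka_eq_aux_P n w' e f) :
    kostka_eq_aux_P (n + 1) w e
      (fun i j => if j < w'.getD i 0 then f i j else if j < w.getD i 0 then n else 0) := by
    obtain ⟨h1, h2, h3, h4, h5⟩ := hf
    rw [List.mem_toFinset, kostka_eq_aux_mem_strips w hw] at hq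
    obtain ⟨g1, g2, g3⟩ := hq
    refine ⟨?_, ?_, ?_, ?_, ?_⟩
    · intro i j1 j2 h6 h7
      have g := g2 i
      simp only
      rw [if_pos h7]
      by_cases h8 : j2 < w'.getD i 0
      · rw [if_pos h8, if_pos (h6.trans h8)]
        exact h1 i j1 j2 h6 h8
      · rw [if_neg h8, if_pos (h6.trans h7)]
        split_ifs with h9
        · exact (h4 i j1 h9).le
        · exact le_rfl
    · intro i1 i2 j h6 h7
      simp only
      have h8 : j < w'.getD i1 0 := by
        have e1 := kostka_eq_aux_anti w hw (i1 + 1) i2 h6
        have e2 := (g2 i1).1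
        omega
      rw [if_pos h8, if_pos h7]
      split_ifs with h9
      · exact h2 i1 i2 j h6 h9
      · exact h4 i1 j h8
    · intro i j h6
      have g := g2 i
      simp only
      rw [if_neg (by omega), if_neg (by omega)]
    · intro i j h6
      simp only
      rw [if_pos h6]
      split_ifs with h9
      · have := h4 i j h9
        omega
      · omega
    · intro k hk
      simp only
      by_cases hkn : k < n
      · rw [← h5 k hkn, g1]
        refine Finset.sum_congr rfl fun i _ => ?_
        congr 1
        ext j
        rw [Finset.mem_filter, Finset.mem_filter, Finset.mem_range, Finset.mem_range]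
        have g := g2 i
        constructor
        · rintro ⟨h6, h7⟩
          rw [if_pos h6] at h7
          split_ifs at h7 with h8
          · exact ⟨h8, h7⟩
          · omega
        · rintro ⟨h6, h7⟩
          rw [if_pos h6]
          exact ⟨by omega, h7⟩
      · have hk' : k = n := by omega
        subst hk'
        have e1 : ∀ i, ((Finset.range (w.getD i 0)).filter (fun j =>
            (if j < w'.getD i 0 then f i j else if j < w.getD i 0 then k else 0) = k)).card
            + w'.getD i 0 = w.getD i 0 := by
          intro i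
          have g := g2 i
          have e2 : (Finset.range (w.getD i 0)).filter (fun j =>
            (if j < w'.getD i 0 then f i j else if j < w.getD i 0 then k else 0) = k)
            = Finset.Ico (w'.getD i 0) (w.getD i 0) := by
            ext j
            rw [Finset.mem_filter, Finset.mem_range, Finset.mem_Ico]
            constructor
            · rintro ⟨h6, h7⟩
              refine ⟨?_, h6⟩
              by_contra hc
              rw [if_pos (by omega)] at h7
              have := h4 i j (by omega)
              omega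
            · rintro ⟨h6, h7⟩
              refine ⟨h7, ?_⟩
              rw [if_neg (by omega), if_pos h7]
          rw [e2, Nat.card_Ico]
          omega
        rw [kostka_eq_aux_sum w, kostka_eq_aux_sum w', g1] at g3
        have e3 : ∑ i ∈ Finset.range w.length, (((Finset.range (w.getD i 0)).filter (fun j =>
            (if j < w'.getD i 0 then f i j else if j < w.getD i 0 then k else 0) = k)).card
            + w'.getD i 0) = ∑ i ∈ Finset.range w.length, w.getD i 0 :=
          Finset.sum_congr rfl fun i _ => e1 i
        rw [Finset.sum_add_distrib] at e3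
        omega

/-- the equivalence of the branching rule -/
def kostka_eq_aux_equiv (n : ℕ) (w : List ℕ) (hw : w.SortedGE) (e : ℕ → ℕ) :
    {f // kostka_eq_aux_P (n + 1) w e f} ≃
      {q : List ℕ × (ℕ → ℕ → ℕ) // q.1 ∈ (strips w (e n)).toFinset ∧
        kostka_eq_aux_P n q.1 e q.2} where
  toFun f := ⟨(kostka_eq_aux_cut n w f.1, fun i j =>
      if j < (kostka_eq_aux_cut n w f.1).getD i 0 then f.1 i j else 0),
      kostka_eq_aux_fwd n w hw e f.1 f.2⟩
  invFun q := ⟨fun i j => if j < q.1.1.getD i 0 then q.1.2 i j
      else if j < w.getD i 0 then n else 0, kostka_eq_aux_bwd n w hw e q.1.1 q.1.2 q.2.1 q.2.2⟩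
  left_inv := by
    rintro ⟨f, h1, h2, h3, h4, h5⟩
    have hlt := kostka_eq_aux_lt_cut n w f h1
    apply Subtype.ext
    funext i j
    simp only
    split_ifs with h6 h7
    · rfl
    · have h8 : ¬ f i j < n := fun h => h6 ((hlt i j).2 ⟨h7, h⟩)
      have := h4 i j h7
      omega
    · exact (h3 i j (by omega)).symm
  right_inv := by
    rintro ⟨⟨w', f⟩, hq, h1, h2, h3, h4, h5⟩
    simp only at hq h1 h2 h3 h4 h5
    rw [List.mem_toFinset, kostka_eq_aux_mem_strips w hw] at hq
    obtain ⟨g1, g2, g3⟩ := hq
    have key : ∀ i, (kostka_eq_aux_cut n w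
        (fun i j => if j < w'.getD i 0 then f i j else if j < w.getD i 0 then n else 0)).getD i 0
        = w'.getD i 0 := by
      intro i
      rw [kostka_eq_aux_cut_getD]
      have e2 : (Finset.range (w.getD i 0)).filter (fun j =>
            (if j < w'.getD i 0 then f i j else if j < w.getD i 0 then n else 0) < n)
            = Finset.range (w'.getD i 0) := by
        have g := g2 i
        ext j
        rw [Finset.mem_filter, Finset.mem_range, Finset.mem_range]
        constructor
        · rintro ⟨h6, h7⟩
          by_contra hc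
          rw [if_neg hc, if_pos h6] at h7
          omega
        · intro h6
          rw [if_pos h6]
          exact ⟨by omega, h4 i j h6⟩
      rw [e2, Finset.card_range]
    have key2 : kostka_eq_aux_cut n w
        (fun i j => if j < w'.getD i 0 then f i j else if j < w.getD i 0 then n else 0) = w' := by
      apply List.ext_getElem
      · rw [kostka_eq_aux_cut_length, g1]
      · intro i h6 h7
        rw [← List.getD_eq_getElem _ 0 h6, ← List.getD_eq_getElem _ 0 h7]
        exact key i
    apply Subtype.ext
    simp only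
    rw [key2]
    congr 1
    funext i j
    split_ifs with h6
    · rfl
    · exact (h3 i j (by omega)).symm

theorem kostka_eq_aux_zero (w : List ℕ) (e : ℕ → ℕ) :
    Finite {f // kostka_eq_aux_P 0 w e f} ∧
      Nat.card {f // kostka_eq_aux_P 0 w e f} = kc [] w := by
  by_cases h : ∀ x ∈ w, x = 0
  · have h0 : ∀ i, w.getD i 0 = 0 := by
      intro i
      by_cases hi : i < w.length
      · rw [List.getD_eq_getElem _ _ hi]
        exact h _ (List.getElem_mem hi)
      · rw [List.getD_eq_default _ _ (by omega)]
    have hu : Unique {f // kostka_eq_aux_P 0 w e f} :=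
      { default := ⟨fun _ _ => 0, by
          refine ⟨?_, ?_, ?_, ?_, ?_⟩
          · intros; exact le_rfl
          · intro i1 i2 j _ hj
            rw [h0] at hj
            omega
          · intros; rfl
          · intro i j hj
            rw [h0] at hj
            omega
          · intro k hk
            omega⟩
        uniq := by
          rintro ⟨f, h1, h2, h3, h4, h5⟩
          apply Subtype.ext
          funext i j
          exact h3 i j (by rw [h0]; exact Nat.zero_le _) }
    refine ⟨inferInstance, ?_⟩
    rw [Nat.card_unique, kc, if_pos]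
    rw [List.all_eq_true]
    intro x hx
    simp [h x hx]
  · have he : IsEmpty {f // kostka_eq_aux_P 0 w e f} := by
      refine ⟨?_⟩
      rintro ⟨f, h1, h2, h3, h4, h5⟩
      apply h
      intro x hx
      obtain ⟨i, hi, rfl⟩ := List.getElem_of_mem hx
      by_contra hc
      have := h4 i 0 (by rw [List.getD_eq_getElem _ _ hi]; omega)
      omega
    refine ⟨inferInstance, ?_⟩
    rw [Nat.card_of_isEmpty, kc, if_neg]
    intro h1
    apply h
    rw [List.all_eq_true] at h1
    intro x hx
    simpa using h1 x hx

theorem kostka_eq_aux_card (e : ℕ → ℕ) (n : ℕ) : ∀ (w : List ℕ), w.SortedGE →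
    Finite {f // kostka_eq_aux_P n w e f} ∧
      Nat.card {f // kostka_eq_aux_P n w e f} = kc (List.ofFn (fun i : Fin n => e i)).reverse w := by
  induction n with
  | zero =>
    intro w _
    have := kostka_eq_aux_zero w e
    simpa using this
  | succ n ih =>
    intro w hw
    have hs : ∀ w' ∈ (strips w (e n)).toFinset, w'.SortedGE := by
      intro w' hw'
      rw [List.mem_toFinset, kostka_eq_aux_mem_strips w hw] at hw'
      obtain ⟨g1, g2, g3⟩ := hw'
      have hanti : Antitone fun i => w'.getD i 0 :=
        antitone_nat_of_succ_le fun i => (g2 (i + 1)).2.trans (g2 i).1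
      apply List.sortedGE_of_getElem_ge_getElem_of_le
      intro i j hi hj hij
      have := hanti hij
      simp only at this
      rwa [List.getD_eq_getElem _ _ hi, List.getD_eq_getElem _ _ hj] at this
    have h1 := kostka_eq_aux_card_fib (strips w (e n)).toFinset
      (fun w' f => kostka_eq_aux_P n w' e f) (fun w' hw' => (ih w' (hs w' hw')).1)
    have e1 := kostka_eq_aux_equiv n w hw e
    have := h1.1
    refine ⟨Finite.of_equiv _ e1.symm, ?_⟩
    rw [Nat.card_congr e1, h1.2]
    have e2 : (List.ofFn (fun i : Fin (n + 1) => e i)).reverse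
        = e n :: (List.ofFn (fun i : Fin n => e i)).reverse := by
      rw [List.ofFn_succ', List.concat_eq_append, List.reverse_append]
      simp
    rw [e2, kc, ← List.sum_toFinset _ (kostka_eq_aux_strips_nodup w (e n))]
    exact Finset.sum_congr rfl fun w' hw' => (ih w' (hs w' hw')).2

theorem kostka_eq_aux_mem (w : List ℕ) (hw : w.SortedGE) (i j : ℕ) :
    (i, j) ∈ YoungDiagram.ofRowLens w hw ↔ j < w.getD i 0 := by
  rw [YoungDiagram.mem_ofRowLens]
  constructor
  · rintro ⟨h1, h2⟩
    rw [List.getD_eq_getElem _ _ h1]
    exact h2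
  · intro h
    have h1 : i < w.length := by
      by_contra hc
      rw [List.getD_eq_default _ _ (by omega)] at h
      omega
    refine ⟨h1, ?_⟩
    rw [List.getD_eq_getElem _ _ h1] at h
    exact h

theorem kostka_eq_aux_content (w : List ℕ) (hw : w.SortedGE) (f : ℕ → ℕ → ℕ) (k : ℕ) :
    ((YoungDiagram.ofRowLens w hw).cells.filter (fun c => f c.1 c.2 = k)).card =
      ∑ i ∈ Finset.range w.length,
        ((Finset.range (w.getD i 0)).filter (fun j => f i j = k)).card := by
  rw [Finset.card_eq_sum_card_fiberwise (f := fun c : ℕ × ℕ => c.1) (t := Finset.range w.length)]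
  · refine Finset.sum_congr rfl fun i _ => ?_
    symm
    refine Finset.card_bij (fun j _ => (i, j)) ?_ ?_ ?_
    · intro j hj
      rw [Finset.mem_filter, Finset.mem_range] at hj
      rw [Finset.mem_filter, Finset.mem_filter, YoungDiagram.mem_cells, kostka_eq_aux_mem]
      exact ⟨⟨hj.1, hj.2⟩, rfl⟩
    · intro a _ b _ h
      exact (Prod.mk.inj h).2
    · rintro ⟨a, b⟩ h
      rw [Finset.mem_filter, Finset.mem_filter, YoungDiagram.mem_cells, kostka_eq_aux_mem] at h
      obtain ⟨⟨h1, h2⟩, h3⟩ := h
      simp only at h3 h2
      subst h3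
      exact ⟨b, by rw [Finset.mem_filter, Finset.mem_range]; exact ⟨h1, h2⟩, rfl⟩
  · rintro ⟨a, b⟩ h
    rw [Finset.mem_coe, Finset.mem_filter, YoungDiagram.mem_cells, YoungDiagram.mem_ofRowLens] at h
    obtain ⟨⟨h1, _⟩, _⟩ := h
    simpa using h1

/-- the branching rule -/
theorem kostka_eq (n : ℕ) (e : Fin n → ℕ) (w : List ℕ) (hw : w.SortedGE) :
    kostka n (YoungDiagram.ofRowLens w hw) e = kc (List.ofFn e).reverse w := by
  have h1 := (kostka_eq_aux_card (fun k => if h : k < n then e ⟨k, h⟩ else 0) n w hw).2
  have h2 : (List.ofFn fun i : Fin n => (fun k => if h : k < n then e ⟨k, h⟩ else 0) (i : ℕ))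
      = List.ofFn e := by
    congr 1
    funext i
    simp
  rw [h2] at h1
  rw [← h1, kostka]
  refine Nat.card_congr ?_
  refine
    { toFun := fun T => ⟨fun i j => T.1 i j, ?_⟩
      invFun := fun f => ⟨⟨f.1, ?_, ?_, ?_⟩, ?_⟩
      left_inv := ?_
      right_inv := ?_ }
  · obtain ⟨T, hT1, hT2⟩ := T
    refine ⟨?_, ?_, ?_, ?_, ?_⟩
    · intro i j1 j2 h3 h4
      exact T.row_weak h3 ((kostka_eq_aux_mem w hw _ _).2 h4)
    · intro i1 i2 j h3 h4
      exact T.col_strict h3 ((kostka_eq_aux_mem w hw _ _).2 h4)
    · intro i j h3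
      refine T.zeros ?_
      rw [kostka_eq_aux_mem]
      omega
    · intro i j h3
      exact hT1 (i, j) ((YoungDiagram.mem_cells _).2 ((kostka_eq_aux_mem w hw _ _).2 h3))
    · intro k hk
      have := hT2 ⟨k, hk⟩
      simp only [dif_pos hk]
      rw [← this, kostka_eq_aux_content w hw (fun i j => T i j) k]
  · obtain ⟨f, g1, g2, g3, g4, g5⟩ := f
    intro i j1 j2 h3 h4
    exact g1 i j1 j2 h3 ((kostka_eq_aux_mem w hw _ _).1 h4)
  · obtain ⟨f, g1, g2, g3, g4, g5⟩ := f
    intro i1 i2 j h3 h4
    exact g2 i1 i2 j h3 ((kostka_eq_aux_mem w hw _ _).1 h4)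
  · obtain ⟨f, g1, g2, g3, g4, g5⟩ := f
    intro i j h3
    refine g3 i j ?_
    rw [kostka_eq_aux_mem] at h3
    omega
  · obtain ⟨f, g1, g2, g3, g4, g5⟩ := f
    refine ⟨?_, ?_⟩
    · rintro ⟨i, j⟩ h3
      exact g4 i j ((kostka_eq_aux_mem w hw _ _).1 ((YoungDiagram.mem_cells _).1 h3))
    · intro k
      have := g5 k k.2
      simp only [dif_pos k.2] at this
      rw [← this, ← kostka_eq_aux_content w hw f k]
      rfl
  · rintro ⟨T, hT⟩
    rfl
  · rintro ⟨f, hf⟩
    rfl

end Pool.Agent.H569_Schur
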