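import Pool.Agent.H569_Schur.Core

/-!
Certificates for ranks.
-/

set_option autoImplicit false

namespace Pool.Agent.H569_Schur

/-- all words of length `n` with at most the given multiplicities; with `n = a + b + c + e` exactly the
words of multidegree `(a, b, c, e)` -/
def aw : ℕ → ℕ → ℕ → ℕ → ℕ → List W
  | 0, _, _, _, _ => [[]]
  | (n + 1), a, b, c, e =>
    (match a with
      | 0 => []
      | a' + 1 => (aw n a' b c e).map (fun w => Lt.a :: w)) ++
    ((match b with
      | 0 => []
      | b' + 1 => (aw n a b' c e).map (fun w => Lt.b :: w)) ++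
    ((match c with
      | 0 => []
      | c' + 1 => (aw n a b c' e).map (fun w => Lt.c :: w)) ++
    (match e with
      | 0 => []
      | e' + 1 => (aw n a b c e').map (fun w => Lt.d :: w))))

theorem cnt_cons (x : Lt) (w : W) (i : Fin 4) : cnt (x :: w) i = cnt w i + if x.fin = i then 1 else 0 := by
  simp only [cnt, List.map_cons, List.count_cons, beq_iff_eq]

theorem mem_aw (n : ℕ) : ∀ (a b c e : ℕ) (w : W), w.length = n → cnt w 0 = a → cnt w 1 = b →
    cnt w 2 = c → cnt w 3 = e → w ∈ aw n a b c e := by
  induction n with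
  | zero =>
    intro a b c e w hw _ _ _ _
    have : w = [] := List.length_eq_zero_iff.1 hw
    subst this
    simp [aw]
  | succ n ih =>
    intro a b c e w hw h0 h1 h2 h3
    match w, hw with
    | x :: w, hw =>
      have hl : w.length = n := by simpa using hw
      simp only [cnt_cons] at h0 h1 h2 h3
      cases x <;> simp only [Lt.fin] at h0 h1 h2 h3 <;> simp at h0 h1 h2 h3
      · subst h0
        simp only [aw, List.mem_append, List.mem_map]
        exact Or.inl ⟨w, ih _ _ _ _ w hl rfl h1 h2 h3, rfl⟩
      · subst h1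
        simp only [aw, List.mem_append, List.mem_map]
        exact Or.inr (Or.inl ⟨w, ih _ _ _ _ w hl h0 rfl h2 h3, rfl⟩)
      · subst h2
        simp only [aw, List.mem_append, List.mem_map]
        exact Or.inr (Or.inr (Or.inl ⟨w, ih _ _ _ _ w hl h0 h1 rfl h3, rfl⟩))
      · subst h3
        simp only [aw, List.mem_append, List.mem_map]
        exact Or.inr (Or.inr (Or.inr ⟨w, ih _ _ _ _ w hl h0 h1 h2 rfl, rfl⟩))

theorem length_eq_cnt (w : W) : w.length = cnt w 0 + cnt w 1 + cnt w 2 + cnt w 3 := by
  induction w with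
  | nil => simp [cnt]
  | cons x w ih =>
    simp only [cnt_cons, List.length_cons, ih]
    cases x <;> simp [Lt.fin] <;> omega

theorem mem_aw' (a b c e : ℕ) (w : W) (h : cnt w = ![a, b, c, e]) : w ∈ aw (a + b + c + e) a b c e := by
  have h0 : cnt w 0 = a := by rw [h]; rfl
  have h1 : cnt w 1 = b := by rw [h]; rfl
  have h2 : cnt w 2 = c := by rw [h]; rfl
  have h3 : cnt w 3 = e := by rw [h]; rfl
  exact mem_aw _ _ _ _ _ w (by rw [length_eq_cnt, h0, h1, h2, h3]) h0 h1 h2 h3

/-- nonempty prefixes with the rest -/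
def cuts : W → List (W × W)
  | [] => []
  | x :: w => ([x], w) :: (cuts w).map (fun p => (x :: p.1, p.2))

theorem mem_cuts (u v : W) (h : u ≠ []) : (u, v) ∈ cuts (u ++ v) := by
  induction u with
  | nil => exact absurd rfl h
  | cons x u ih =>
    simp only [List.cons_append, cuts, List.mem_cons, List.mem_map]
    by_cases hu : u = []
    · left; subst hu; simp
    · right; exact ⟨_, ih hu, rfl⟩

/-- all ways to cut a word into `k` nonempty words -/
def splits : ℕ → W → List (List W)
  | 0, w => match w with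
    | [] => [[]]
    | _ :: _ => []
  | (k + 1), w => (cuts w).flatMap (fun p => (splits k p.2).map (fun ws => p.1 :: ws))

theorem mem_splits (k : ℕ) : ∀ ws : List W, ws.length = k → [] ∉ ws → ws ∈ splits k ws.flatten := by
  induction k with
  | zero =>
    intro ws h _
    have : ws = [] := List.length_eq_zero_iff.1 h
    subst this
    simp [splits]
  | succ k ih =>
    intro ws h h0
    match ws, h with
    | w :: ws, h =>
      have hl : ws.length = k := by simpa using h
      simp only [List.mem_cons, not_or] at h0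
      simp only [splits, List.flatten_cons, List.mem_flatMap, List.mem_map]
      exact ⟨(w, ws.flatten), mem_cuts _ _ (fun hh => h0.1 hh.symm), ws, ih ws hl h0.2, rfl⟩

/-- tables indexed by words -/
inductive Tr
  | o
  | l (v : ℕ)
  | n (a b c d : Tr)

/-- look up -/
def Tr.get : W → Tr → ℕ
  | [], .l v => v
  | Lt.a :: w, .n x _ _ _ => Tr.get w x
  | Lt.b :: w, .n _ x _ _ => Tr.get w x
  | Lt.c :: w, .n _ _ x _ => Tr.get w x
  | Lt.d :: w, .n _ _ _ x => Tr.get w x
  | _, _ => 0

instance finG (e : Fin 4 → ℕ) (K : Type) [Field K] : Module.Finite K (G K 4 e) := by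
  rw [Module.Finite.iff_fg]
  have : G K 4 e ≤ Submodule.span K
      ((fun w => mono w) '' {w | w ∈ aw (e 0 + e 1 + e 2 + e 3) (e 0) (e 1) (e 2) (e 3)}) := by
    rw [G_eq, Submodule.span_le]
    rintro _ ⟨w, hw, rfl⟩
    apply Submodule.subset_span
    refine ⟨w, ?_, rfl⟩
    apply mem_aw'
    rw [hw]
    funext i; fin_cases i <;> rfl
  have hfin : ((fun w => (mono w : FreeAlgebra K (Fin 4))) ''
      {w | w ∈ aw (e 0 + e 1 + e 2 + e 3) (e 0) (e 1) (e 2) (e 3)}).Finite :=
    (List.finite_toSet _).image _
  have := Module.Finite.span_of_finite K hfin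
  exact (Submodule.fg_iff_finiteDimensional _).2 (Submodule.finiteDimensional_of_le ‹_›)

instance finLG (k : ℕ) (e : Fin 4 → ℕ) (K : Type) [Field K] :
    Module.Finite K ↥(L K 4 k ⊓ G K 4 e) :=
  Submodule.finiteDimensional_of_le (inf_le_right : L K 4 k ⊓ G K 4 e ≤ G K 4 e)

theorem finrank_G_le (K : Type) [Field K] (a b c e : ℕ) :
    Module.finrank K (G K 4 ![a, b, c, e]) ≤ (aw (a + b + c + e) a b c e).length := by
  classical
  have : G K 4 ![a, b, c, e] ≤ Submodule.span K
      (↑(((aw (a + b + c + e) a b c e).map (mono : W → FreeAlgebra K (Fin 4))).toFinset) :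
        Set (FreeAlgebra K (Fin 4))) := by
    rw [G_eq, Submodule.span_le]
    rintro _ ⟨w, hw, rfl⟩
    apply Submodule.subset_span
    rw [Finset.mem_coe, List.mem_toFinset]
    exact List.mem_map.2 ⟨w, mem_aw' _ _ _ _ w hw, rfl⟩
  have h2 := Submodule.finrank_mono this
  refine h2.trans ((finrank_span_finset_le_card _).trans ?_)
  exact (List.toFinset_card_le _).trans (by simp)

section lower

/-- xor of a list -/
def xorL (l : List ℕ) : ℕ := l.foldr (fun a b => a ^^^ b) 0

/-- functional: the `j`-th bit -/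
def bitf (t : Tr) (j : ℕ) (u : W) : ℤ := if (Tr.get u t).testBit j then 1 else 0

theorem bit_sum (t : Tr) (j : ℕ) (l : List W) :
    (((l.map (bitf t j)).sum : ℤ) : ZMod 2)
      = if (xorL (l.map (fun u => Tr.get u t))).testBit j then 1 else 0 := by
  induction l with
  | nil => simp [xorL]
  | cons u l ih =>
    rw [List.map_cons, List.sum_cons, Int.cast_add, ih]
    simp only [List.map_cons, xorL, List.foldr_cons, Nat.testBit_xor, bitf]
    have key : ∀ x y : Bool, (((if x then 1 else 0 : ℤ)) : ZMod 2) + (if y then 1 else 0)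
        = if (x ^^ y) then 1 else 0 := by decide
    exact key _ _

theorem evz_bit (t : Tr) (j : ℕ) (ws : List W) :
    ((evz (bitf t j) ws : ℤ) : ZMod 2)
      = if (xorL (((ex ws).1 ++ (ex ws).2).map (fun u => Tr.get u t))).testBit j then 1 else 0 := by
  rw [← bit_sum, List.map_append, List.sum_append, evz, Int.cast_sub, Int.cast_add]
  have : ∀ x : ZMod 2, -x = x := by decide
  rw [sub_eq_add_neg, this]

/-- the check for lower bounds -/
def chk2 (t : Tr) : List (List W) → ℕ → Bool
  | [], _ => true
  | ws :: l, i => Nat.beq (xorL (((ex ws).1 ++ (ex ws).2).map (fun u => Tr.get u t))) (2 ^ i)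
      && chk2 t l (i + 1)

theorem chk2_get (t : Tr) (l : List (List W)) (i : ℕ) (h : chk2 t l i = true) (j : Fin l.length) :
    xorL (((ex (l.get j)).1 ++ (ex (l.get j)).2).map (fun u => Tr.get u t)) = 2 ^ (i + j) := by
  induction l generalizing i with
  | nil => exact j.elim0
  | cons ws l ih =>
    rw [chk2, Bool.and_eq_true] at h
    refine Fin.cases ?_ (fun j => ?_) j
    · simpa using Nat.eq_of_beq_eq_true h.1
    · have := ih (i + 1) h.2 j
      have e : i + 1 + (j : ℕ) = i + ((Fin.succ j : Fin (l.length + 1)) : ℕ) := by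
        simp [Fin.val_succ]; omega
      rw [e] at this
      simpa using this

/-- lengths and multidegrees -/
def chkW (k : ℕ) (a b c e : ℕ) (l : List (List W)) : Bool :=
  l.all (fun ws => Nat.beq ws.length k && (Nat.beq (cnt ws.flatten 0) a &&
    (Nat.beq (cnt ws.flatten 1) b && (Nat.beq (cnt ws.flatten 2) c && Nat.beq (cnt ws.flatten 3) e))))

theorem lower (K : Type) [Field K] [CharZero K] (k : ℕ) (hk : 1 ≤ k) (a b c e : ℕ) (t : Tr)
    (l : List (List W)) (h1 : chkW k a b c e l = true) (h2 : chk2 t l 0 = true) :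
    l.length ≤ Module.finrank K ↥(L K 4 k ⊓ G K 4 ![a, b, c, e]) := by
  have hW : ∀ ws ∈ l, ws.length = k ∧ cnt ws.flatten = ![a, b, c, e] := by
    intro ws hws
    have := List.all_eq_true.1 h1 ws hws
    simp only [Bool.and_eq_true] at this
    obtain ⟨q0, q1, q2, q3, q4⟩ := this
    refine ⟨Nat.eq_of_beq_eq_true q0, ?_⟩
    funext i
    fin_cases i
    · exact Nat.eq_of_beq_eq_true q1
    · exact Nat.eq_of_beq_eq_true q2
    · exact Nat.eq_of_beq_eq_true q3
    · exact Nat.eq_of_beq_eq_true q4
  let v : Fin l.length → ↥(L K 4 k ⊓ G K 4 ![a, b, c, e]) := fun i =>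
    ⟨brk (l.get i), brk_mem_L k hk _ (hW _ (l.get_mem i)).1, by
      have := brk_mem_G (K := K) (l.get i)
      rwa [(hW _ (l.get_mem i)).2] at this⟩
  let M : Matrix (Fin l.length) (Fin l.length) ℤ := fun i j => evz (bitf t j) (l.get i)
  have hM : M.map (Int.castRingHom (ZMod 2)) = 1 := by
    ext i j
    show ((evz (bitf t j) (l.get i) : ℤ) : ZMod 2) = _
    rw [evz_bit, chk2_get t l 0 h2 i, zero_add, Matrix.one_apply, Nat.testBit_two_pow]
    by_cases h : i = j
    · subst h; simp
    · have h' : (i : ℕ) ≠ (j : ℕ) := fun h'' => h (Fin.ext h'')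
      simp [h, h']
  have hdet : M.det ≠ 0 := by
    intro h0
    have h3 : (Int.castRingHom (ZMod 2)) M.det = (M.map (Int.castRingHom (ZMod 2))).det :=
      RingHom.map_det _ _
    rw [hM, Matrix.det_one, h0, map_zero] at h3
    exact absurd h3 (by decide)
  have hdetK : (M.map (Int.castRingHom K)).det ≠ 0 := by
    have h3 : (Int.castRingHom K) M.det = (M.map (Int.castRingHom K)).det := RingHom.map_det _ _
    rw [← h3]
    simpa using hdet
  have hli : LinearIndependent K v := by
    rw [Fintype.linearIndependent_iff]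
    intro g hg
    have hg' : ∑ i, g i • (brk (l.get i) : FreeAlgebra K (Fin 4)) = 0 := by
      have := congrArg Subtype.val hg
      simpa [v] using this
    have hv : Matrix.vecMul g (M.map (Int.castRingHom K)) = 0 := by
      funext j
      have := congrArg (fn (K := K) (bitf t j)) hg'
      rw [map_sum, map_zero] at this
      simp only [map_smul, fn_brk, smul_eq_mul] at this
      exact this
    have := Matrix.eq_zero_of_vecMul_eq_zero hdetK hv
    exact fun i => congrFun this i
  simpa using hli.fintype_card_le_finrank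

end lower

section upper

/-- digits in base `X` -/
def dig (X i N : ℕ) : ℕ := N / X ^ i % X

theorem dig_succ (X i N : ℕ) : dig X (i + 1) N = dig X i (N / X) := by
  unfold dig
  rw [pow_succ', Nat.div_div_eq_div_mul]

theorem sum_div_mod (X : ℕ) (l : List ℕ) :
    l.sum = X * (l.map (fun N => N / X)).sum + (l.map (fun N => N % X)).sum := by
  induction l with
  | nil => simp
  | cons N l ih =>
    simp only [List.sum_cons, List.map_cons]
    have := Nat.div_add_mod N X
    rw [ih, mul_add]
    omega

theorem dig_sum (X : ℕ) (i : ℕ) : ∀ l : List ℕ, (∀ j ≤ i, (l.map (dig X j)).sum < X) →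
    dig X i l.sum = (l.map (dig X i)).sum := by
  induction i with
  | zero =>
    intro l h
    have h0 := h 0 le_rfl
    have e : (dig X 0) = fun N => N % X := by funext N; simp [dig]
    rw [e] at h0 ⊢
    show l.sum % X = _
    rw [sum_div_mod X l, Nat.mul_add_mod, Nat.mod_eq_of_lt h0]
  | succ i ih =>
    intro l h
    have h0 := h 0 (by omega)
    have e : (dig X 0) = fun N => N % X := by funext N; simp [dig]
    rw [e] at h0
    have hX : 0 < X := by omega
    have hq : l.sum / X = (l.map (fun N => N / X)).sum := by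
      rw [sum_div_mod X l, Nat.mul_add_div hX, Nat.div_eq_of_lt h0, add_zero]
    rw [dig_succ, hq]
    have := ih (l.map (fun N => N / X)) (by
      intro j hj
      have := h (j + 1) (by omega)
      rw [List.map_map]
      have e2 : (dig X j) ∘ (fun N => N / X) = dig X (j + 1) := by
        funext N; simp [dig_succ]
      rw [e2]; exact this)
    rw [this, List.map_map]
    congr 2
    funext N; simp [dig_succ]

/-- functional given by the `i`-th digit -/
def digf (X B : ℕ) (t : Tr) (i : ℕ) (u : W) : ℤ := (dig X i (Tr.get u t) : ℤ) - B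

/-- all digits below `b` -/
def smallD (X b : ℕ) : ℕ → ℕ → Bool
  | 0, _ => true
  | (r + 1), N => Nat.blt (N % X) b && smallD X b r (N / X)

theorem smallD_spec (X b : ℕ) (r : ℕ) : ∀ N, smallD X b r N = true → ∀ i < r, dig X i N < b := by
  induction r with
  | zero => intro N _ i hi; omega
  | succ r ih =>
    intro N h i hi
    rw [smallD, Bool.and_eq_true] at h
    cases i with
    | zero => simpa [dig, Nat.blt_eq] using h.1
    | succ i => rw [dig_succ]; exact ih _ h.2 i (by omega)

theorem sum_lt_of (l : List ℕ) (b m X : ℕ) (hb : 1 ≤ b) (h : ∀ x ∈ l, x < b) (hl : l.length ≤ m)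
    (hm : m * (b - 1) < X) : l.sum < X := by
  have : l.sum ≤ l.length * (b - 1) := by
    have := List.sum_le_card_nsmul l (b - 1) (fun x hx => by have := h x hx; omega)
    simpa using this
  have h2 : l.length * (b - 1) ≤ m * (b - 1) := Nat.mul_le_mul_right _ hl
  omega

/-- the annihilation check -/
def chkA (t : Tr) (m : ℕ) (ws : List W) : Bool :=
  Nat.beq ((ex ws).1.map (fun u => Tr.get u t)).sum ((ex ws).2.map (fun u => Tr.get u t)).sum &&
    (Nat.beq (ex ws).1.length m && Nat.beq (ex ws).2.length m)

/-- the pivots check: row of digits -/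
def chkP (X B : ℕ) (N : ℕ) (j : ℕ) : ℕ → Bool
  | 0 => true
  | (r + 1) => (if Nat.beq r j then !(Nat.beq (dig X r N) B) else Nat.beq (dig X r N) B) &&
      chkP X B N j r

theorem chkP_spec (X B N j : ℕ) (r : ℕ) (h : chkP X B N j r = true) :
    ∀ i < r, (i = j → dig X i N ≠ B) ∧ (i ≠ j → dig X i N = B) := by
  induction r with
  | zero => intro i hi; omega
  | succ r ih =>
    intro i hi
    rw [chkP, Bool.and_eq_true] at h
    rcases Nat.lt_or_ge i r with h1 | h1
    · exact ih h.2 i h1
    · obtain rfl : i = r := by omega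
      have h2 := h.1
      constructor
      · intro hij
        rw [if_pos (by rw [hij]; exact Nat.beq_refl j)] at h2
        intro hB
        rw [hB, Nat.beq_refl] at h2
        exact absurd h2 (by decide)
      · intro hij
        rw [if_neg (fun hh => hij (Nat.eq_of_beq_eq_true hh))] at h2
        exact Nat.eq_of_beq_eq_true h2

/-- the pivots check -/
def chkPs (X B r : ℕ) (t : Tr) : List W → ℕ → Bool
  | [], _ => true
  | u :: l, j => chkP X B (Tr.get u t) j r && chkPs X B r t l (j + 1)

theorem chkPs_get (X B r : ℕ) (t : Tr) (l : List W) (i : ℕ) (h : chkPs X B r t l i = true)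
    (j : Fin l.length) : chkP X B (Tr.get (l.get j) t) (i + j) r = true := by
  induction l generalizing i with
  | nil => exact j.elim0
  | cons u l ih =>
    rw [chkPs, Bool.and_eq_true] at h
    refine Fin.cases ?_ (fun j => ?_) j
    · simpa using h.1
    · have := ih (i + 1) h.2 j
      have e : i + 1 + (j : ℕ) = i + ((Fin.succ j : Fin (l.length + 1)) : ℕ) := by
        simp [Fin.val_succ]; omega
      rw [e] at this
      simpa using this

theorem evz_dig (X B b m r : ℕ) (t : Tr) (hb : 1 ≤ b) (hm : m * (b - 1) < X) (ws : List W)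
    (hA : chkA t m ws = true)
    (hs : ∀ u, (u ∈ (ex ws).1 ∨ u ∈ (ex ws).2) → smallD X b r (Tr.get u t) = true) (i : ℕ) (hi : i < r) :
    evz (digf X B t i) ws = 0 := by
  rw [chkA, Bool.and_eq_true, Bool.and_eq_true] at hA
  obtain ⟨h1, h2, h3⟩ := hA
  have h1 := Nat.eq_of_beq_eq_true h1
  have h2 := Nat.eq_of_beq_eq_true h2
  have h3 := Nat.eq_of_beq_eq_true h3
  have key : ∀ l : List W, l.length = m → (∀ u ∈ l, smallD X b r (Tr.get u t) = true) →
      ((l.map (digf X B t i)).sum : ℤ) =
        (dig X i (l.map (fun u => Tr.get u t)).sum : ℤ) - m * B := by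
    intro l hl hsm
    have hd := dig_sum X i (l.map (fun u => Tr.get u t)) (by
      intro j hj
      refine sum_lt_of _ b m X hb ?_ (by simp [hl]) hm
      intro x hx
      simp only [List.map_map, List.mem_map, Function.comp] at hx
      obtain ⟨u, hu, rfl⟩ := hx
      exact smallD_spec X b r _ (hsm u hu) j (by omega))
    rw [hd, List.map_map]
    have : ∀ l : List W, ((l.map (digf X B t i)).sum : ℤ)
        = (((l.map (dig X i ∘ fun u => Tr.get u t)).sum : ℕ) : ℤ) - l.length * B := by
      intro l
      induction l with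
      | nil => simp
      | cons u l ih =>
        simp only [List.map_cons, List.sum_cons, ih, digf, List.length_cons, Function.comp]
        push_cast; ring
    rw [this l, hl]
  rw [evz, key _ h2 (fun u hu => hs u (Or.inl hu)), key _ h3 (fun u hu => hs u (Or.inr hu)), h1]
  ring

/-- the full check for upper bounds -/
def chkU (k a b c e X B bd m r : ℕ) (t : Tr) (piv : List W) : Bool :=
  (aw (a + b + c + e) a b c e).all (fun w => smallD X bd r (Tr.get w t) &&
    (splits k w).all (chkA t m)) && chkPs X B r t piv 0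

theorem upper (K : Type) [Field K] [CharZero K] (k : ℕ) (hk : 2 ≤ k) (a b c e X B bd m r : ℕ)
    (t : Tr) (piv : List W) (hbd : 1 ≤ bd) (hm : m * (bd - 1) < X) (hr : piv.length = r)
    (hpiv : ∀ u ∈ piv, cnt u = ![a, b, c, e])
    (h : chkU k a b c e X B bd m r t piv = true) :
    Module.finrank K ↥(L K 4 k ⊓ G K 4 ![a, b, c, e]) + r ≤ (aw (a + b + c + e) a b c e).length := by
  rw [chkU, Bool.and_eq_true, List.all_eq_true] at h
  obtain ⟨hall, hP⟩ := h
  have hcheck : ∀ w, cnt w = ![a, b, c, e] → smallD X bd r (Tr.get w t) = true ∧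
      ∀ ws ∈ splits k w, chkA t m ws = true := by
    intro w hw
    have := hall w (mem_aw' _ _ _ _ w hw)
    rw [Bool.and_eq_true, List.all_eq_true] at this
    exact this
  -- functionals vanish on the brackets
  have hvan : ∀ ws : List W, ws.length = k → [] ∉ ws → cnt ws.flatten = ![a, b, c, e] →
      ∀ i < r, evz (digf X B t i) ws = 0 := by
    intro ws hl h0 hc i hi
    refine evz_dig X B bd m r t hbd hm ws ((hcheck _ hc).2 ws ?_) ?_ i hi
    · rw [← hl]; exact mem_splits _ ws rfl h0
    · intro u hu
      exact (hcheck u (by rw [ex_cnt ws u hu, hc])).1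
  let Φ : FreeAlgebra K (Fin 4) →ₗ[K] (Fin piv.length → K) :=
    LinearMap.pi (fun i => fn (K := K) (digf X B t i))
  have hU : L K 4 k ⊓ G K 4 ![a, b, c, e] ≤ LinearMap.ker Φ := by
    refine (L_inf_G k hk _).trans ?_
    rw [Submodule.span_le]
    rintro _ ⟨ws, hl, h0, hc, rfl⟩
    rw [SetLike.mem_coe, LinearMap.mem_ker]
    funext i
    show fn (K := K) (digf X B t i) (brk ws) = 0
    rw [fn_brk, hvan ws hl h0 hc i (by rw [← hr]; exact i.2), Int.cast_zero]
  have hsurj : Function.Surjective (Φ.domRestrict (G K 4 ![a, b, c, e])) := by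
    rw [← LinearMap.range_eq_top, eq_top_iff]
    intro y _
    have hy : y = ∑ j, y j • (Pi.single j (1 : K) : Fin piv.length → K) := by
      funext i
      simp [Finset.sum_apply, Pi.single_apply]
    rw [hy]
    refine Submodule.sum_mem _ (fun j _ => Submodule.smul_mem _ _ ?_)
    have hc := hpiv _ (piv.get_mem j)
    have hPj := chkP_spec _ _ _ _ _ (chkPs_get X B r t piv 0 hP j)
    have hjr : (j : ℕ) < r := by rw [← hr]; exact j.2
    have hmem : (mono (piv.get j) : FreeAlgebra K (Fin 4)) ∈ G K 4 ![a, b, c, e] := by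
      rw [← hc]; exact mono_mem_G _
    have hval : Φ (mono (piv.get j)) =
        ((digf X B t j (piv.get j) : ℤ) : K) • (Pi.single j (1 : K) : Fin piv.length → K) := by
      funext i
      show fn (K := K) (digf X B t i) (mono (piv.get j)) = _
      rw [fn_mono, Pi.smul_apply, Pi.single_apply, smul_eq_mul]
      by_cases hij : i = j
      · subst hij; simp
      · rw [if_neg hij, mul_zero]
        have := (hPj i (by rw [← hr]; exact i.2)).2 (by
          intro hh; apply hij; apply Fin.ext; omega)
        simp only [digf, this, sub_self, Int.cast_zero]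
    have hne : ((digf X B t j (piv.get j) : ℤ) : K) ≠ 0 := by
      have := (hPj j hjr).1 (by omega)
      rw [Int.cast_ne_zero, digf]
      omega
    refine ⟨((digf X B t j (piv.get j) : ℤ) : K)⁻¹ • ⟨_, hmem⟩, ?_⟩
    rw [map_smul, LinearMap.domRestrict_apply, hval, smul_smul, inv_mul_cancel₀ hne, one_smul]
  have h1 := LinearMap.finrank_range_add_finrank_ker (Φ.domRestrict (G K 4 ![a, b, c, e]))
  rw [LinearMap.range_eq_top.2 hsurj, finrank_top, Module.finrank_fin_fun] at h1
  have h2 : Module.finrank K ↥(L K 4 k ⊓ G K 4 ![a, b, c, e]) ≤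
      Module.finrank K (LinearMap.ker (Φ.domRestrict (G K 4 ![a, b, c, e]))) := by
    let f : ↥(L K 4 k ⊓ G K 4 ![a, b, c, e]) →ₗ[K]
        (LinearMap.ker (Φ.domRestrict (G K 4 ![a, b, c, e]))) :=
      LinearMap.codRestrict _ (Submodule.inclusion inf_le_right) (fun x => by
        rw [LinearMap.mem_ker]
        exact hU x.2)
    refine LinearMap.finrank_le_finrank_of_injective (f := f) ?_
    intro x y hxy
    have h5 : Submodule.inclusion (inf_le_right : L K 4 k ⊓ G K 4 ![a, b, c, e] ≤ _) x
        = Submodule.inclusion (inf_le_right : L K 4 k ⊓ G K 4 ![a, b, c, e] ≤ _) y :=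
      congrArg Subtype.val hxy
    exact Submodule.inclusion_injective _ h5
  have h3 := finrank_G_le K a b c e
  omega

end upper

theorem dimB_add (K : Type) [Field K] (k : ℕ) (hk : 1 ≤ k) (d : Fin 4 → ℕ) :
    dimB K 4 k d + Module.finrank K ↥(L K 4 (k + 1) ⊓ G K 4 d)
      = Module.finrank K ↥(L K 4 k ⊓ G K 4 d) := by
  have hle : L K 4 (k + 1) ⊓ G K 4 d ≤ L K 4 k ⊓ G K 4 d :=
    inf_le_inf_right _ (L_le_of k hk)
  have h1 := Submodule.finrank_quotient_add_finrank
    ((L K 4 (k + 1) ⊓ G K 4 d).submoduleOf (L K 4 k ⊓ G K 4 d))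
  have h2 : Module.finrank K ↥((L K 4 (k + 1) ⊓ G K 4 d).submoduleOf (L K 4 k ⊓ G K 4 d))
      = Module.finrank K ↥(L K 4 (k + 1) ⊓ G K 4 d) :=
    LinearEquiv.finrank_eq (Submodule.submoduleOfEquivOfLe hle)
  rw [h2] at h1
  exact h1

end Pool.Agent.H569_Schur
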