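import Pool.Agent.H569_Schur.Rank
set_option autoImplicit false
set_option maxRecDepth 100000
namespace Pool.Agent.H569_Schur
open Tr

def t220 : Tr := (n (n (n o (n o (l 84427014) o o) o o) (n (n o (l 68174085) o o) (n (l 68174148) o o o) o o) o o) (n (n (n o (l 68178180) o o) (n (l 68436228) o o o) o o) (n (n (l 84951300) o o o) o o o) o o) o o)

def p220 : List W := [[.a,.b,.a,.b], [.a,.b,.b,.a], [.b,.a,.a,.b], [.b,.a,.b,.a], [.b,.b,.a,.a]]

theorem u220 (K : Type) [Field K] [CharZero K] :
    Module.finrank K ↥(L K 4 4 ⊓ G K 4 ![2, 2, 0, 0]) + 5 ≤ 6 :=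
  upper K 4 (by norm_num) 2 2 0 0 64 4 9 4 5 t220 p220 (by norm_num) (by norm_num) rfl
    (by decide +kernel) (by decide +kernel)

def t211 : Tr := (n (n (n o (n o o (l 1425177557868934) o) (n o (l 1143703654908292) o o) o) (n (n o o (l 1148100644450629) o) o (n (l 1143771333935365) o o o) o) (n (n o (l 1143771333935428) o o) (n (l 1143771333939460) o o o) o o) o) (n (n (n o o (l 1143771334197508) o) o (n (l 1143771350712580) o o o) o) o (n (n (l 1143772407677188) o o o) o o o) o) (n (n (n o (l 1143840053412100) o o) (n (l 1148169380446468) o o o) o o) (n (n (l 1425246310646020) o o o) o o o) o o) o)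

def p211 : List W := [[.a,.b,.c,.a], [.a,.c,.a,.b], [.a,.c,.b,.a], [.b,.a,.a,.c], [.b,.a,.c,.a], [.b,.c,.a,.a], [.c,.a,.a,.b], [.c,.a,.b,.a], [.c,.b,.a,.a]]

theorem u211 (K : Type) [Field K] [CharZero K] :
    Module.finrank K ↥(L K 4 4 ⊓ G K 4 ![2, 1, 1, 0]) + 9 ≤ 12 :=
  upper K 4 (by norm_num) 2 1 1 0 64 4 9 4 9 t211 p211 (by norm_num) (by norm_num) rfl
    (by decide +kernel) (by decide +kernel)

def t32 : Tr := (n (n (n (n o (n o (l 138639585812344220691) o o) o o) (n (n o (l 147844838034745861649) o o) (n (l 147862747017444859921) o o o) o o) o o) (n (n (n o (l 147862747017444860432) o o) (n (l 147862747017445122064) o o o) o o) (n (n (l 147862747017579077648) o o o) o o o) o o) o o) (n (n (n (n o (l 147862747086164336656) o o) (n (l 147862782201816948752) o o o) o o) (n (n (l 147880761415954341904) o o o) o o o) o o) (n (n (n (l 157086119054299635728) o o o) o o o) o o o) o o) o o)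

def p32 : List W := [[.a,.a,.b,.b,.a], [.a,.b,.a,.a,.b], [.a,.b,.a,.b,.a], [.a,.b,.b,.a,.a], [.b,.a,.a,.a,.b], [.b,.a,.a,.b,.a], [.b,.a,.b,.a,.a], [.b,.b,.a,.a,.a]]

theorem u32 (K : Type) [Field K] [CharZero K] :
    Module.finrank K ↥(L K 4 5 ⊓ G K 4 ![3, 2, 0, 0]) + 8 ≤ 10 :=
  upper K 5 (by norm_num) 3 2 0 0 512 16 33 8 8 t32 p32 (by norm_num) (by norm_num) rfl
    (by decide +kernel) (by decide +kernel)

def t221 : Tr := (n (n (n o (n o (n o o (l 172409501529445893338210373345956434899954963295043324938) o) (n o (l 196929056038880871249840161871963515143568111389337192968) o o) o) (n o (n o (l 196928681894461801652303069187200406869451910296711464968) o o) o o) o) (n (n o (n o o (l 196833275073285831077973288189054309666729109102377961993) o) (n o (l 196928681900170792081520485809471000744398360832060688648) o o) o) (n (n o o (l 196928680444378145860394546054865787634210210988014700553) o) o (n (l 196928681894484102394848295630044436583603308061616769033) o o o) o) (n (n o (l 196928681894484102394848295630044436583603308061616769288)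 o o) (n (l 196928681894484102394848295630044436583603308061616834568) o o o) o o) o) (n (n o (n o (l 196928681894484102394848295630044436583603308061633546248) o o) o o) (n (n o (l 196928681894484102394848295630044436583603308065911736328) o o) (n (l 196928681894484102394848295630044436583603309161128396808) o o o) o o) o o) o) (n (n (n o (n o o (l 196928681894484102394848295630044436583603589536593479688) o) (n o (l 196928681894484102394848295630044436583675365655654696968) o o) o) (n (n o o (l 196928681894484102394848295630044436602050052135326320648) o) o (n (l 196928681894484102394848295630044441305969790931261982728) o o o) o) (n (n o (l 196928681894484102394848295630045645509422922690791475208) o o) (n (l 196928681894484102394848295630353921593424653130341550088) o o o) o o) o) (n (n (n o o (l 196928681894484102394848295709272599097867645655160719368) o) o (n (l 196928681894484102394848315912454040235273732008868055048) o o o) o) o (n (n (l 196928681894484102394853487926902971411231838557945989128) o o o) o o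 o) o) (n (n (n o (l 196928681894484102396177523625829352456507115121897113608) o o) (n (l 196928681894484102735130662550982900046977915493384980488) o o o) o o) (n (n (l 196928681894484189507134227390291083207502810594278901768) o o o) o o o) o o) o) (n (n (n o (n o (l 196928681894506403140046826253185972301875956423122749448) o o) o o) (n (n o (l 196928681900193093165672135154277580461401288607147755528) o o) (n (l 196928683355985739725751213833729269299886327717549312008) o o o) o o) o o) (n (n (n o (l 196929056038903259105995355773361611952056339980347770888) o o) (n (l 197024462865788220448495692319241330907579479256753244168) o o o) o o) (n (n (l 221448610548338324128581848064449383521503134016554403848) o o o) o o o) o o) o o) o)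

def p221 : List W := [[.a,.b,.b,.c,.a], [.a,.b,.c,.a,.b], [.a,.b,.c,.b,.a], [.a,.c,.a,.b,.b], [.a,.c,.b,.a,.b], [.a,.c,.b,.b,.a], [.b,.a,.a,.b,.c], [.b,.a,.a,.c,.b], [.b,.a,.b,.a,.c], [.b,.a,.b,.c,.a], [.b,.a,.c,.a,.b], [.b,.a,.c,.b,.a], [.b,.b,.a,.a,.c], [.b,.b,.a,.c,.a], [.b,.b,.c,.a,.a], [.b,.c,.a,.a,.b], [.b,.c,.a,.b,.a], [.b,.c,.b,.a,.a], [.c,.a,.a,.b,.b], [.c,.a,.b,.a,.b], [.c,.a,.b,.b,.a], [.c,.b,.a,.a,.b], [.c,.b,.a,.b,.a], [.c,.b,.b,.a,.a]]

theorem u221 (K : Type) [Field K] [CharZero K] :
    Module.finrank K ↥(L K 4 5 ⊓ G K 4 ![2, 2, 1, 0]) + 24 ≤ 30 :=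
  upper K 5 (by norm_num) 2 2 1 0 256 8 17 8 24 t221 p221 (by norm_num) (by norm_num) rfl
    (by decide +kernel) (by decide +kernel)

def s32 : Tr := (n (n o (n o (n (n (l 23) o o o) o o o) o o) o o) (n (n (n (n o (l 31) o o) (n (l 19) o o o) o o) (n (n (l 21) o o o) o o o) o o) (n (n (n (l 22) o o o) o o o) o o o) o o) o o)

def b32 : List (List W) := [[[.a], [.a], [.a], [.b,.b]],
 [[.a], [.a], [.a,.b], [.b]],
 [[.a], [.a,.b], [.a], [.b]],
 [[.a,.b], [.a], [.a], [.b]],
 [[.b], [.a], [.a,.a], [.b]]]

theorem l32 (K : Type) [Field K] [CharZero K] :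
    5 ≤ Module.finrank K ↥(L K 4 4 ⊓ G K 4 ![3, 2, 0, 0]) :=
  lower K 4 (by norm_num) 3 2 0 0 s32 b32 (by decide +kernel) (by decide +kernel)

def s221 : Tr := (n (n o o (n o (n (n o (l 3336) o o) (n (l 63202) o o o) o o) o o) o) (n (n (n o o (n o (l 7497) o o) o) o (n (n o (l 12514) o o) (n (l 63169) o o o) o o) o) (n (n (n o o (l 62690) o) o (n (l 63074) o o o) o) o o o) (n (n (n o (l 1024) o o) (n (l 8) o o o) o o) (n (n (l 1) o o o) o o o) o o) o) (n (n (n o (n o (l 29922) o o) o o) (n (n o (l 14570) o o) (n (l 24) o o o) o o) o o) (n (n (n o (l 2376) o o) (n (l 3332) o o o) o o) (n (n (l 2) o o o) o o o) o o) o o) o)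

def b221 : List (List W) := [[[.a], [.a], [.b], [.b,.c]],
 [[.a], [.a], [.b,.b], [.c]],
 [[.a], [.a,.b], [.b], [.c]],
 [[.a], [.b], [.a], [.b,.c]],
 [[.a], [.b], [.a,.b], [.c]],
 [[.a], [.b,.a], [.b], [.c]],
 [[.a,.b], [.a], [.b], [.c]],
 [[.a], [.b], [.a,.c], [.b]],
 [[.a,.b], [.b], [.a], [.c]],
 [[.a,.c], [.b], [.a], [.b]],
 [[.b], [.a], [.a], [.b,.c]],
 [[.b], [.a], [.a,.b], [.c]],
 [[.b], [.a,.a], [.b], [.c]],
 [[.b], [.a], [.a,.c], [.b]],
 [[.b], [.a,.b], [.a], [.c]],
 [[.b], [.b], [.a,.a], [.c]]]

theorem l221 (K : Type) [Field K] [CharZero K] :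
    16 ≤ Module.finrank K ↥(L K 4 4 ⊓ G K 4 ![2, 2, 1, 0]) :=
  lower K 4 (by norm_num) 2 2 1 0 s221 b221 (by decide +kernel) (by decide +kernel)

end Pool.Agent.H569_Schur
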